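import Pool.Agent.W_448f6_h94.FxF

/-!
The ladder at window 6, level 14, energies up to 75 (MP_448cb3_co, S8, `j = 14`).
-/

namespace Pool.Agent.GaussPoset.F6

set_option linter.unusedSectionVars false

open Polynomial Finset Fi

universe u

variable {P : Type u} [Fintype P] [PartialOrder P] [DecidableEq P] {r i m K : ℕ}
  {N : Tops P → Finset P} {b : Tops P → ℕ} {θ : Tops P → P → ℕ}

/-- one step: the elements of cost `n` with the largest drop `δ` have one sign -/
theorem WE.kill (W : WE r i m K N b θ) {n δ : ℕ} (hn : n < K - 1) (hδ : 1 ≤ δ) {σ : ℤ}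
    (hσ : σ ≠ 0)
    (hcost : ∀ z ∈ bdR (r2 (2 * m) N), n ≤ cst i (h2 (2 * m) N θ) z)
    (h1 : ∀ z ∈ bdR (r2 (2 * m) N), cst i (h2 (2 * m) N θ) z = n →
      nab i z ≤ nab (i + h2 (2 * m) N θ z) z + δ)
    (h3 : ∀ z ∈ bdR (r2 (2 * m) N), cst i (h2 (2 * m) N θ) z = n →
      nab i z = nab (i + h2 (2 * m) N θ z) z + δ → (-1 : ℤ) ^ (nst i (h2 (2 * m) N θ) z) = σ) :
    ∀ z ∈ bdR (r2 (2 * m) N), cst i (h2 (2 * m) N θ) z = n →
      nab i z ≠ nab (i + h2 (2 * m) N θ z) z + δ := by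
  classical
  intro z0 hz0 hc0 hd0
  have F := W.farT
  have hd := F.dvd_lead hn hcost
  have hZ := dvd_Z W.gt.H.gauss i n
  set T := (bdR (r2 (2 * m) N)).filter (fun z => cst i (h2 (2 * m) N θ) z = n) with hT
  have hb : δ ≤ (lv P i).card := by
    have h5 : nab i z0 ≤ (lv P i).card := by
      unfold nab
      exact Finset.card_filter_le _ _
    omega
  have hs := sign_sum_of_dvd T hZ hd (c0 := (lv P i).card - δ) (by omega) (by
    intro y hy
    rw [hT, mem_filter] at hy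
    have h4 := h1 y hy.1 hy.2
    omega)
  set T' := T.filter (fun y => (lv P i).card - δ + nab i y =
    (lv P i).card + nab (i + h2 (2 * m) N θ y) y) with hT'
  have hz0T : z0 ∈ T' := by
    rw [hT', mem_filter, hT, mem_filter]
    exact ⟨⟨hz0, hc0⟩, by omega⟩
  rw [Finset.sum_congr rfl (g := fun _ => σ)] at hs
  · rw [Finset.sum_const, nsmul_eq_mul] at hs
    rcases mul_eq_zero.mp hs with h4 | h4
    · have h5 : T'.card = 0 := by exact_mod_cast h4
      rw [Finset.card_eq_zero] at h5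
      rw [h5] at hz0T
      exact absurd hz0T (Finset.notMem_empty _)
    · exact hσ h4
  · intro y hy
    rw [hT', mem_filter, hT, mem_filter] at hy
    exact h3 y hy.1.1 hy.1.2 (by omega)

/-- the ladder with drops 1 -/
theorem WE.ladder (W : WE r i m K N b θ) {N0 : ℕ} (hN : N0 + 1 ≤ K) (sg : ℕ → ℤ)
    (hsg : ∀ n, sg n ≠ 0)
    (hrow : ∀ z ∈ bdR (r2 (2 * m) N), N0 ≤ cst i (h2 (2 * m) N θ) z ∨
      (nab i z = nab (i + h2 (2 * m) N θ z) z + 1 ∧
        (-1 : ℤ) ^ (nst i (h2 (2 * m) N θ) z) = sg (cst i (h2 (2 * m) N θ) z))) :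
    ∀ z ∈ bdR (r2 (2 * m) N), N0 ≤ cst i (h2 (2 * m) N θ) z := by
  have key : ∀ n, n < N0 → ∀ z ∈ bdR (r2 (2 * m) N), cst i (h2 (2 * m) N θ) z ≠ n := by
    intro n
    induction n using Nat.strong_induction_on with
    | _ n ih =>
    intro hn z hz hc
    have h1 : ∀ z ∈ bdR (r2 (2 * m) N), n ≤ cst i (h2 (2 * m) N θ) z := by
      intro y hy
      by_contra hcon
      exact ih _ (not_le.mp hcon) (by omega) y hy rfl
    have h2 : ∀ z ∈ bdR (r2 (2 * m) N), cst i (Pool.Agent.GaussPoset.h2 (2 * m) N θ) z = n →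
        nab i z = nab (i + Pool.Agent.GaussPoset.h2 (2 * m) N θ z) z + 1 ∧
        (-1 : ℤ) ^ (nst i (Pool.Agent.GaussPoset.h2 (2 * m) N θ) z) = sg n := by
      intro y hy hcy
      rcases hrow y hy with h | h
      · omega
      · rw [hcy] at h
        exact h
    exact W.kill (by omega) le_rfl (hsg n) h1 (fun y hy hcy => (h2 y hy hcy).1.le)
      (fun y hy hcy _ => (h2 y hy hcy).2) z hz hc (h2 z hz hc).1
  intro z hz
  by_contra hcon
  exact key _ (not_le.mp hcon) z hz rfl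

/-- the sign of the energy `n` -/
def sg6 (n : ℕ) : ℤ := if n = 51 ∨ n = 73 ∨ n = 74 then 1 else -1

lemma sg6_ne (n : ℕ) : sg6 n ≠ 0 := by
  unfold sg6
  split_ifs <;> norm_num

/-- cost of a join of a fold end and an end with the profile `p` -/
def cF (p : List ℕ) : ℕ := vsQ 6 7 (kF 6 7) (fun d => (1 + pF 7 d) + (1 + gD p d)) + kF 6 7

/-- the check of a row -/
def okF (p : List ℕ) : Bool :=
  decide (76 ≤ cF p) ||
  (decide (72 ≤ cF p ∧ cF p ≤ 75) &&
    ((decide (((1 + pF 7 8) + (1 + gD p 8)) = ((1 + pF 7 5) + (1 + gD p 5)) + 1) &&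
      decide (nsQ 6 7 (kF 6 7) (fun d => (1 + pF 7 d) + (1 + gD p d)) % 2 =
        if cF p = 73 ∨ cF p = 74 then 0 else 1)) ||
     decide (((1 + pF 7 8) + (1 + gD p 8)) = ((1 + pF 7 5) + (1 + gD p 5)) ∧ cF p = 75)))

lemma okF_all : ∀ p ∈ PL 6 7, okF p = true := by decide +kernel

/-- the rows at window 6 -/
theorem WE.row6 (W : WE r 6 7 77 N b θ)
    (hC : ∀ z x x' : P, Fd 7 x → (Win.uc x').card = 1 → topOf x' = topOf x → x ≠ x' →
      z ⋖ x → z ⋖ x' → False) {z : P} (hz : z ∈ bdR (r2 (2 * 7) N)) :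
    76 ≤ cst 6 (h2 (2 * 7) N θ) z ∨
    (nab 6 z = nab (6 + h2 (2 * 7) N θ z) z + 1 ∧
      (-1 : ℤ) ^ (nst 6 (h2 (2 * 7) N θ) z) = sg6 (cst 6 (h2 (2 * 7) N θ) z)) ∨
    (cst 6 (h2 (2 * 7) N θ) z = 75 ∧ nab 6 z = nab (6 + h2 (2 * 7) N θ z) z) := by
  rcases W.bd hz with hl | hl
  · rcases W.rows (by decide) (by decide) (by decide) (by decide) (by decide +kernel)
      (by decide +kernel) (bd_mem hz) hl with ⟨x, hx, hp, hn⟩ |
      ⟨x, x', hx, hx', ht, hzx, hzx', hn⟩ | ⟨x, x', hx, h1, ht, hzx, hzx', p, hp, hpr, hn⟩ |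
      ⟨x, x', hx, h1, ht, hne, hzx, hzx'⟩ | h
    · right; left
      refine ⟨?_, ?_⟩
      · rw [hn.n0, hn.n1]
        decide
      · rw [hn.nst, hn.cst]
        decide +kernel
    · left
      rw [hn.cst]
      decide +kernel
    · have h2 := okF_all p hp
      unfold okF at h2
      simp only [Bool.or_eq_true, Bool.and_eq_true, decide_eq_true_eq] at h2
      have hc : cst 6 (Pool.Agent.GaussPoset.h2 (2 * 7) N θ) z = cF p := hn.cst
      have e0 : nab 6 z = (1 + pF 7 8) + (1 + gD p 8) := hn.n0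
      have e1 : nab (6 + Pool.Agent.GaussPoset.h2 (2 * 7) N θ z) z =
        (1 + pF 7 5) + (1 + gD p 5) := hn.n1
      rcases h2 with h2 | ⟨h2, h3 | h3⟩
      · left; omega
      · right; left
        refine ⟨by omega, ?_⟩
        rw [hn.nst, hc, sg6, neg_one_pow_eq_pow_mod_two, h3.2]
        by_cases h4 : cF p = 73 ∨ cF p = 74
        · rw [if_pos h4, if_pos (Or.inr h4), pow_zero]
        · rw [if_neg h4, if_neg (by omega), pow_one]
      · right; right
        exact ⟨by omega, by omega⟩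
    · exact (hC z x x' hx h1 ht hne hzx hzx').elim
    · left; omega
  · left; omega

/-- **the result of the ladder**: no boundary element of drop 1 and cost `≤ 75` -/
theorem WE.result (W : WE r 6 7 77 N b θ)
    (hC : ∀ z x x' : P, Fd 7 x → (Win.uc x').card = 1 → topOf x' = topOf x → x ≠ x' →
      z ⋖ x → z ⋖ x' → False) {z : P} (hz : z ∈ bdR (r2 (2 * 7) N)) :
    76 ≤ cst 6 (h2 (2 * 7) N θ) z ∨
      (cst 6 (h2 (2 * 7) N θ) z = 75 ∧ nab 6 z = nab (6 + h2 (2 * 7) N θ z) z) := by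
  have h1 : ∀ z ∈ bdR (r2 (2 * 7) N), 75 ≤ cst 6 (h2 (2 * 7) N θ) z := by
    refine W.ladder (by norm_num) sg6 sg6_ne fun z hz => ?_
    rcases W.row6 hC hz with h | h | h
    · left; omega
    · exact Or.inr h
    · left; omega
  rcases W.row6 hC hz with h | h | h
  · exact Or.inl h
  · rcases (h1 z hz).lt_or_eq with h4 | h4
    · left; omega
    · exfalso
      refine W.kill (n := 75) (δ := 1) (by norm_num) le_rfl (sg6_ne 75) h1 ?_ ?_ z hz h4.symm h.1
      · intro y hy hcy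
        rcases W.row6 hC hy with h | h | h
        · omega
        · exact h.1.le
        · omega
      · intro y hy hcy hdy
        rcases W.row6 hC hy with h | h | h
        · omega
        · rw [hcy] at h
          exact h.2
        · omega
  · exact Or.inr h

/-- **no pendant below a fold end** -/
theorem WE.no_pend (W : WE r 6 7 77 N b θ)
    (hC : ∀ z x x' : P, Fd 7 x → (Win.uc x').card = 1 → topOf x' = topOf x → x ≠ x' →
      z ⋖ x → z ⋖ x' → False) {z x : P} (hx : Fd 7 x) (hp : Pend z x) : False := by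
  have hz2 := W.pend_r2 hx hp
  have hl : lev z = 2 * 7 + 1 := by
    have h1 := (W.gt.H.covBy_iff.mp hp.1).2
    have h2 := hx.1
    omega
  have hz := W.mem_bd hz2 hl
  have hn : NQ 6 7 N θ z (kF 6 7) (fun d => 1 + pF 7 d) := by
    refine NQ.mk' hl (by decide) ?_ fun d hd => ?_
    · rw [W.h2_eqI hz2 hl hp.1 (fun y hy => by rw [hp.2 y hy]), W.fold_th hx]
      rfl
    · rw [nab_pend hp (by omega)]
      exact W.fold_prof hx d (by omega)
  have h1 := W.result hC hz
  have h3 : cst 6 (Pool.Agent.GaussPoset.h2 (2 * 7) N θ) z = 51 := by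
    rw [hn.cst]
    decide +kernel
  omega

/-- **the joins with a fold end** -/
theorem WE.join_prof (W : WE r 6 7 77 N b θ)
    (hC : ∀ z x x' : P, Fd 7 x → (Win.uc x').card = 1 → topOf x' = topOf x → x ≠ x' →
      z ⋖ x → z ⋖ x' → False) {z x x' : P} (hx : Fd 7 x) (ht : topOf x ≠ topOf x')
    (hzx : z ⋖ x) (hzx' : z ⋖ x') {p : List ℕ} (hp : p ∈ PL 6 7) (hpr : Prof 7 x' (gD p)) :
    p = [0, 0, 1, 1, 1] ∨ p = [0, 0, 1, 1, 1, 1, 1] ∨ p = p5 ∨ p = [0, 0, 0, 0, 0, 1] := by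
  have H := W.gt.H
  have hz2 := W.join_r2 ht hzx hzx'
  have hl : lev z = 2 * 7 + 1 := by
    have h1 := (W.gt.H.covBy_iff.mp hzx).2
    have h2 := hx.1
    omega
  have hlx' : lev x' = 2 * 7 := by
    have := (H.covBy_iff.mp hzx').2
    omega
  have hne : x ≠ x' := fun h => ht (by rw [h])
  have hz := W.mem_bd hz2 hl
  -- the label of the other end
  have hth : θ (topOf x) x ≤ θ (topOf x') x' := by
    have e0 : θ (topOf x) x = 2 := by rw [W.fold_th hx]
    rw [e0]
    rcases W.kind hlx' with h | h | h | h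
    · rw [h.th, hlx']; norm_num
    · rw [W.fold_th h]
    · rw [(h.prof x' (le_topOf x') hlx').2.1]; norm_num
    · exfalso
      obtain ⟨j, hj⟩ : ∃ j, 2 * 7 = j + 1 := ⟨13, rfl⟩
      have hgt := W.gt
      rw [hj] at hgt
      rcases (Win.near_level' hgt (by omega)).1 z x x' (by omega) hzx hzx' hne with
        h7 | ⟨h7, h8, -⟩
      · exact (W.near hz2 hl hzx hzx' hne h7)
      · omega
  have hn : NQ 6 7 N θ z (kF 6 7) (fun d => (1 + pF 7 d) + (1 + gD p d)) := by
    refine NQ.mk' hl (by decide) ?_ fun d hd => ?_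
    · rw [W.h2_eqI hz2 hl hzx (fun y hy => ?_), W.fold_th hx]
      · rfl
      · rcases uc_pair H hzx hzx' hne hy with e | e
        · rw [e]
        · rw [e]; exact hth
    · rw [W.nab_joinI hl hzx hzx' ht (by omega), W.fold_prof hx d (by omega),
        hpr d (by omega)]
  have h1 := W.result hC hz
  have hc : cst 6 (h2 (2 * 7) N θ) z = cF p := hn.cst
  have e0 : nab 6 z = (1 + pF 7 8) + (1 + gD p 8) := hn.n0
  have e1 : nab (6 + h2 (2 * 7) N θ z) z = (1 + pF 7 5) + (1 + gD p 5) := hn.n1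
  rw [hc, e0, e1] at h1
  have key : ∀ p ∈ PL 6 7, (76 ≤ cF p ∨ (cF p = 75 ∧
      (1 + pF 7 8) + (1 + gD p 8) = (1 + pF 7 5) + (1 + gD p 5))) →
      p = [0, 0, 1, 1, 1] ∨ p = [0, 0, 1, 1, 1, 1, 1] ∨ p = p5 ∨ p = [0, 0, 0, 0, 0, 1] := by
    decide +kernel
  exact key p hp h1

end Pool.Agent.GaussPoset.F6
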