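import Pool.Agent.W_448f6_h94.FxP
import Pool.Agent.W_448f6_h94.FxG
import Pool.Agent.W_448s8f_h61.TK

/-!
The types of the components at window 6, level 14, and the context (MP_448cb3_co, S8, `j = 14`).
-/

namespace Pool.Agent.GaussPoset.F6

set_option linter.unusedSectionVars false

open Polynomial Finset Wd Cl Cp

universe u

variable {P : Type u} [Fintype P] [PartialOrder P] [DecidableEq P] {r a : ℕ}
variable {t : Tops P} {lo hi : ℕ → ℕ} {e : ℕ → ℕ → P}

lemma PLl_PL67 : ∀ p ∈ PLl, p ∈ Fi.PL 6 7 := by decide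

lemma kapR_67 : Fi.KapR 6 7 77 := by
  unfold Fi.KapR
  decide +kernel

lemma kapS_67 : Fi.KapS 6 7 77 := by
  unfold Fi.KapS
  decide +kernel

/-- light components -/
theorem te_light (h : Win.GoodTo P r (2 * 7)) (C : Comp (2 * 7) (t : P) lo hi e)
    (h6 : lo 6 = 0 ∧ hi 6 = 0) (h2 : lo 2 = 0 ∧ hi 2 = 0)
    (hp : ∀ s, lo (2 * 7) ≤ s → s ≤ hi (2 * 7) → (Win.uc (e (2 * 7) s)).card = 1 →
      ∃ p ∈ Fi.PL 6 7, Fi.Prof 7 (e (2 * 7) s) (Fi.gD p)) :
    ∃ Nt θ, ∀ N : Tops P → Finset P, N t = Nt → TyE 6 7 77 N t (hi 6 - lo 6 + 1) θ := by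
  classical
  refine ⟨_, _, fun N hN => TyE.light hN rfl (by omega) (only_low h) ⟨e 6 (lo 6), C.le_t 6 (lo 6)
    (by omega) le_rfl (C.lo_le 6 (by omega)), C.lev_e 6 (lo 6) (by omega) le_rfl
    (C.lo_le 6 (by omega))⟩ ?_ ?_⟩
  · intro v hv hvl hvu
    obtain ⟨s, s1, s2, hs⟩ := C.surj v hv hvl.le
    rw [hvl] at s1 s2 hs
    subst hs
    exact hp s s1 s2 hvu
  · rw [cn_comp C (by omega)]
    omega

/-- straight strips -/
theorem te_str (h : Win.GoodTo P r (2 * 7)) (C : Comp (2 * 7) (t : P) lo hi e)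
    (hL : ∀ k, k ≤ 2 * 7 → lo k = 0 ∧ hi k = 0) :
    ∃ Nt θ, ∀ N : Tops P → Finset P, N t = Nt → TyE 6 7 77 N t (hi 6 - lo 6 + 1) θ := by
  have hcn : ∀ l, l ≤ 2 * 7 → cn l (t : P) = 1 := by
    intro l hl
    rw [cn_comp C (by omega)]
    have := hL l hl
    omega
  refine te_light h C (hL 6 (by omega)) (hL 2 (by omega)) ?_
  intro s s1 s2 _
  have hv := C.le_t (2 * 7) s le_rfl s1 s2
  have hvl := C.lev_e (2 * 7) s le_rfl s1 s2
  refine ⟨[], nil_PL, ?_⟩
  intro d hd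
  have h1 := nab_le_cn' (t := t) h hv hvl.le (2 * 7 - d)
  rw [hcn _ (by omega)] at h1
  have h2 := one_le_nab (z := e (2 * 7) s) (l := 2 * 7 - d) (by omega)
  rw [gD_large (Nat.zero_le _)]
  omega

/-- late strips, light at window 6 -/
theorem te_late (h : Win.GoodTo P r (2 * 7)) (C : Comp (2 * 7) (t : P) lo hi e)
    (D : LateD (2 * 7) a lo hi) (ha : 6 < a) :
    ∃ Nt θ, ∀ N : Tops P → Finset P, N t = Nt → TyE 6 7 77 N t (hi 6 - lo 6 + 1) θ := by
  have h0 := D.h0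
  have h1 := D.h1
  refine te_light h C (D.h2 6 ha) (D.h2 2 (by omega)) ?_
  rcases D.h4 with ⟨h2, h3⟩ | h2
  · have hq := D.quad C h3
    have Q : QRows (2 * 7) a lo hi := ⟨D.h2, D.h3, by
      intro k hk hk2
      have := hq (k - a) (by omega) (by omega)
      rwa [show a + (k - a) = k by omega] at this⟩
    have hQ : QInf 7 a t := Q.inf C (by omega)
    intro s s1 s2 _
    exact ⟨_, rep_PL (d := 2 * 7 - a) (by omega) (by omega),
      quad_prof hQ (C.le_t (2 * 7) s le_rfl s1 s2) (C.lev_e (2 * 7) s le_rfl s1 s2)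
        (low_up h) h1⟩
  · rw [lateW_large (by omega)] at h2
    intro s s1 s2 hvu
    obtain ⟨p, hp, hpr, -⟩ := prof_late C h.H h.good D h2 s1 s2 hvu
    exact ⟨p, PLl_PL67 p hp, hpr⟩

/-- rectangle-like strips -/
theorem te_rect (h : Win.GoodTo P r (2 * 7)) (C : Comp (2 * 7) (t : P) lo hi e)
    (h1 : lo 1 = 0 ∧ hi 1 = 1) (S : RectShape (2 * 7) lo hi) :
    ∃ Nt θ, ∀ N : Tops P → Finset P, N t = Nt → TyE 6 7 77 N t (hi 6 - lo 6 + 1) θ := by
  have H := h.H
  have hg := h.good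
  have hlt : lo 6 < hi 6 := by
    have g1 := C.lo_mono (l := 1) (d := 5) (by omega)
    have g2 := C.hi_mono (l := 1) (d := 5) (by omega)
    norm_num at g1 g2
    by_contra hcon
    have g3 := C.lo_le 6 (by omega)
    have g4 := shape_lo C S.lo (l := 6) (by omega) 6 (by omega)
    have g5 := shape_hi C S.hi (l := 6) (by omega) 6 (by omega)
    have g6 := C.lo_le (6 + 6) (by omega)
    omega
  obtain ⟨Nc, co, h2, -⟩ := exists_rect C H hg H.gradedBelow S (i := 6) (by omega) hlt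
  refine ⟨_, _, fun N hN => TyE.rect Nc co h2 hN rfl ?_⟩
  intro x z hxt hxl hx2 hzx honly
  exact rectShape_no_pendant (i := 13) h (by omega) t.2 C S hxl hxt hx2 hzx honly

/-- stair-like strips -/
theorem te_stair (h : Win.GoodTo P r (2 * 7)) (C : Comp (2 * 7) (t : P) lo hi e)
    (S : StairShape (2 * 7) lo hi) :
    ∃ Nt θ, ∀ N : Tops P → Finset P, N t = Nt → TyE 6 7 77 N t (hi 6 - lo 6 + 1) θ := by
  have H := h.H
  have hg := h.good
  obtain ⟨Nc, co, h1, -⟩ := exists_stair C H hg H.gradedBelow S (i := 6) (by omega)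
  have hnop : NopT 7 t := by
    intro x z hxt hxl hx2 hzx honly
    have h2 := stairShape_pendant (i := 13) h (by omega) t.2 C S hxl hxt hx2 hzx honly
    have h3 := cell_lev C (x := x) hxt (by omega)
    omega
  have e0 : lo 6 = 0 := by
    by_contra hcon
    have e1 := shape_lo C S.lo (l := 6) (by omega) 6 (by omega)
    have e2 := S.hi (6 + 6) (by omega)
    have e3 := C.lo_le (6 + 6) (by omega)
    omega
  have e1 := S.hi 6 (by omega)
  exact ⟨_, _, fun N hN => TyE.stair Nc co h1 hN rfl (by omega) hnop⟩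

/-- `E7` -/
theorem te_E7 (h : Win.GoodTo P r (2 * 7)) (C : Comp (2 * 7) (t : P) lo hi e)
    (D : WordD (2 * 7) 4 w7 lo hi) :
    ∃ Nt θ, ∀ N : Tops P → Finset P, N t = Nt → TyE 6 7 77 N t (hi 6 - lo 6 + 1) θ := by
  obtain ⟨θ, E⟩ := exists_E7L h C D
  obtain ⟨h1, h2⟩ := D.rows C
  refine ⟨nE t (Cs.c7 e 24), θ, fun N hN => ?_⟩
  have hb : hi 6 - lo 6 + 1 = 2 := by
    rw [h1 6 (by omega), h2 6 (by omega)]
    decide +kernel
  rw [hb]
  exact oth_E7 h C D hN E

/-- the type of a strip -/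
theorem te_shape (h : Win.GoodTo P r (2 * 7)) (C : Comp (2 * 7) (t : P) lo hi e)
    (hS : Shape (2 * 7) lo hi) :
    ∃ Nt θ, ∀ N : Tops P → Finset P, N t = Nt → TyE 6 7 77 N t (hi 6 - lo 6 + 1) θ := by
  rcases hS with h1 | ⟨h1, h2⟩ | ⟨h1, h2⟩ | ⟨h1, h2, h3⟩ | ⟨h1, h2⟩ | ⟨a, h0, h1, h2, h3, hN, h4⟩
  · exact te_str h C h1
  · exact te_rect h C h1 h2
  · exact te_stair h C h2
  · omega
  · omega
  · have D : LateD (2 * 7) a lo hi := ⟨h0, h1, h2, h3, h4⟩
    rcases Nat.lt_or_ge 6 a with h5 | h5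
    · exact te_late h C D h5
    · rcases h4 with ⟨⟨g1, g2⟩, g3⟩ | g3
      · omega
      · obtain rfl | rfl | rfl | rfl : a = 3 ∨ a = 4 ∨ a = 5 ∨ a = 6 := by omega
        · have := (wordD_three D (by omega)).2
          omega
        · exact te_E7 h C (wordD_four D (by omega) (by omega)).1
        · exact absurd word_length (Sg.late5_14 _ g3)
        · exact absurd word_length (Sg.late6_14 _ g3)

/-- **The context at window 6, level 14.** -/
theorem exists_WE (h : Win.GoodTo P r (2 * 7)) (hr : 2 * 7 + 1 ≤ r) {lo hi : Tops P → ℕ → ℕ}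
    {e : Tops P → ℕ → ℕ → P} (C : ∀ t : Tops P, Comp (2 * 7) (t : P) (lo t) (hi t) (e t))
    (hS : ∀ t, Shape (2 * 7) (lo t) (hi t)) :
    ∃ N θ, WE r 6 7 77 N (fun t => hi t 6 - lo t 6 + 1) θ := by
  classical
  choose N θ hT using fun t => te_shape h (C t) (hS t)
  refine ⟨N, θ, ⟨h, hr, by omega, by omega, by omega, fun t => hT t N rfl, ?_, kapR_67, kapS_67,
    by norm_num⟩⟩
  rw [card_level h.H h.good C (i := 6) (by omega)]

end Pool.Agent.GaussPoset.F6
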