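import Pool.Agent.W_448s14_h94.SgA
import Pool.Agent.W_448rr_h67.RrA

/-!
Truncated component data with twins (MP_448cb3_co, S8, `j = 14`, window 6).
-/

namespace Pool.Agent.GaussPoset.F6

set_option linter.unusedSectionVars false

open Polynomial Finset

universe u

variable {P : Type u} [Fintype P] [PartialOrder P] [DecidableEq P]
variable {ι : Type*}

open Dd

/-- component data with twins, order `b` below the energy `n0` only -/
structure CompDataTL (R : Finset P) (cp : P → ι) (k : ι) (i b n0 : ℕ) (θ : P → ℕ) (B : P → Prop)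
    (Tw : Finset (P × P)) : Prop where
  clean : ∀ D, Good i R B D → Broken Tw D → ∀ _ : DecidableEq ι, ∀ n < n0,
    (1 + X : ℤ[X]) ^ b ∣ Z {x : {x : P // x ∉ D} // cp (x : P) = k} i n
  lev : ∀ x, x ∉ R → cp x = k → 1 ≤ θ x → i < lev x
  base : ∀ x, x ∉ R → cp x = k → 1 ≤ θ x → ∀ y ≤ x, y ∉ R → ¬ B y
  step : ∀ x, x ∉ R → cp x = k → 1 ≤ θ x → ∀ y ≤ x, y ∉ R → ∀ x', x' ∉ R → y ⋖ x' →
    ¬ x' ≤ x → θ x ≤ θ x' + 1
  le : ∀ x, x ∉ R → cp x = k → θ x ≤ Pool.Agent.GaussPoset.lev x - i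

/-- bounded cleanness with frozen labels on `R` -/
theorem labels_of_compTL [Fintype ι] [DecidableEq ι] {i : ℕ} {R : Finset P}
    (hR : ∀ x y, x ≤ y → y ∈ R → x ∈ R) (hRlev : ∀ x ∈ R, i < lev x)
    (cp : P → ι) (hcp : ∀ x y, x ≤ y → x ∉ R → cp x = cp y) (b : ι → ℕ) (θ : P → ℕ)
    (B : P → Prop) (hBR : ∀ x ∈ R, ¬ B x) (Tw : Finset (P × P)) (n0 : ℕ)
    (H : ∀ k, CompDataTL R cp k i (b k) n0 θ B Tw)
    (htw : ∀ t ∈ Tw, TwinPair i θ n0 t.1 t.2) (hmin : ∀ t ∈ Tw, ∀ y < t.2, y ∈ R)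
    (htR : ∀ t ∈ Tw, t.1 ∉ R ∧ t.2 ∉ R)
    (g : P → ℕ) (hg0 : ∀ x, x ∉ R → g x = 0)
    (hg : ∀ y ∈ R, ∀ x, x ∉ R → y ⋖ x → g y ≤ θ x) (n : ℕ) (hn : n < n0) :
    (1 + X : ℤ[X]) ^ (∑ k, b k) ∣ ZB i R g 0 n := by
  classical
  let θ' : P → ℕ := fun x => if x ∈ R then 0 else θ x
  have hθ' : ∀ x, x ∉ R → θ' x = θ x := fun x hx => if_neg hx
  have hθ0 : ∀ x, 1 ≤ θ' x → x ∉ R := by
    intro x hx hxR
    have : θ' x = 0 := if_pos hxR
    omega
  have hlow : ∀ D ∈ {D | Good i R B D}, ∀ x y, x ≤ y → y ∈ D → x ∈ D := fun D hD => hD.1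
  have hlev : ∀ D ∈ {D | Good i R B D}, ∀ x ∈ D, i < lev x := fun D hD => hD.2.2.1
  have hRR : R ∈ {D | Good i R B D} := ⟨hR, Subset.refl R, hRlev, hBR⟩
  refine dvd_ZB_labels_lt i _ n0 {D | Good i R B D} θ' hlow hlev ?_ hRR g hg0
    (fun y hy x hx hyx => by rw [hθ' x hx]; exact hg y hy x hx hyx) n hn
  refine dvd_ZB_bounds_twins i _ n0 {D | Good i R B D} θ' Tw hlow hlev ?_ ?_ ?_ ?_ ?_ ?_
  · intro x hx
    have hxR := hθ0 x hx
    rw [hθ' x hxR] at hx
    exact (H (cp x)).lev x hxR rfl hx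
  · intro D hD hbr n hn
    rw [ZB_off hD.1 hD.2.2.1]
    have hc : ∀ x y : {x : P // x ∉ D}, x ≤ y → cp (x : P) = cp (y : P) := fun x y hxy =>
      hcp x y hxy fun h => x.2 (hD.2.1 h)
    choose f hf hf' using fun k => exists_norm {x : {x : P // x ∉ D} // cp (x : P) = k} i
    rw [Z_prod (fun x : {x : P // x ∉ D} => cp (x : P)) hc i f hf n]
    refine Lo.prod (n0 := n0) univ (fun k _ n' hn' => ?_) n hn
    rw [hf']
    exact (H k).clean D hD hbr inferInstance n' hn'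
  · intro D hD x hx hθx
    have hxR := hθ0 x hθx
    rw [hθ' x hxR] at hθx
    have hlx := (H (cp x)).lev x hxR rfl hθx
    refine ⟨?_, hD.2.1.trans subset_union_left, ?_, ?_⟩
    · intro a c hac hc
      rw [mem_union, mem_dnf] at hc ⊢
      rcases hc with hc | hc
      · exact Or.inl (hD.1 a c hac hc)
      · exact Or.inr (hac.trans hc)
    · intro a ha
      rw [mem_union, mem_dnf] at ha
      rcases ha with ha | ha
      · exact hD.2.2.1 a ha
      · rcases eq_or_lt_of_le ha with h | h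
        · rw [h]; exact hlx
        · have := lev_strictAnti h; omega
    · intro a ha
      rw [mem_union, mem_dnf] at ha
      rcases ha with ha | ha
      · exact hD.2.2.2 a ha
      · by_cases haR : a ∈ R
        · exact hBR a haR
        · exact (H (cp x)).base x hxR rfl hθx a ha haR
  · intro D hD x hx hθx y hyx hyD x' hyx' hx'x
    have hxR := hθ0 x hθx
    have hyR : y ∉ R := fun h => hyD (hD.2.1 h)
    have hx'R : x' ∉ R := fun h => hyR (hR y x' hyx'.1.le h)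
    rw [hθ' x hxR] at hθx ⊢
    rw [hθ' x' hx'R]
    exact (H (cp x)).step x hxR rfl hθx y hyx hyR x' hx'R hyx' hx'x
  · intro t ht
    have h1 := htR t ht
    have h2 := htw t ht
    refine ⟨h2.ne, h2.up, ?_, ?_, ?_, ?_, ?_⟩
    · rw [hθ' _ h1.1]; exact h2.one_le
    · rw [hθ' _ h1.1, hθ' _ h1.2]; exact h2.eq
    · rw [hθ' _ h1.1]; exact h2.le
    · rw [hθ' _ h1.1]; exact h2.costF
    · rw [hθ' _ h1.1]; exact h2.costT
  · intro t ht D hD y hy
    exact hD.2.1 (hmin t ht y hy)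

/-- truncated far data from truncated component data with twins -/
theorem farT_of_compTL [Fintype ι] [DecidableEq ι] {i : ℕ} {R : Finset P}
    (hgr : GradedBelow P) (hR : ∀ x y, x ≤ y → y ∈ R → x ∈ R) (hRlev : ∀ x ∈ R, i < lev x)
    (cp : P → ι) (hcp : ∀ x y, x ≤ y → x ∉ R → cp x = cp y) (b : ι → ℕ) (θ : P → ℕ)
    (B : P → Prop) (hBR : ∀ x ∈ R, ¬ B x) (Tw : Finset (P × P)) (n0 : ℕ)
    (H : ∀ k, CompDataTL R cp k i (b k) n0 θ B Tw)
    (htw : ∀ t ∈ Tw, TwinPair i θ n0 t.1 t.2) (hmin : ∀ t ∈ Tw, ∀ y < t.2, y ∈ R)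
    (htR : ∀ t ∈ Tw, t.1 ∉ R ∧ t.2 ∉ R) : FarT P i R (∑ k, b k) (hcan R θ) n0 where
  graded := hgr
  hlev := hRlev
  clean := by
    intro g hg0 hg n hn
    refine labels_of_compTL hR hRlev cp hcp b θ B hBR Tw n0 H htw hmin htR g hg0 ?_ n hn
    intro y hy x hx hyx
    have h1 : y ∈ bdR R := by
      classical
      exact mem_filter.mpr ⟨hy, x, hx, hyx⟩
    have h2 := hg y h1
    have h3 := hcan_le (θ := θ) hx hyx
    omega
  one_le := by
    intro z hz
    obtain ⟨x, -, -, hx⟩ := hcan_spec (θ := θ) hz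
    omega
  le_lev := by
    classical
    intro z hz
    obtain ⟨x, hxR, hzx, hx⟩ := hcan_spec (θ := θ) hz
    have h1 := hgr.lev_covBy hzx
    have h2 := (H (cp x)).le x hxR rfl
    have h3 := hRlev z (mem_filter.mp hz).1
    omega

section Tw

variable {R Y D : Finset P} {cp : P → ι} {τ : P → P} {k : ι} {i b n0 : ℕ} {θ : P → ℕ}
  {B : P → Prop}

/-- the complements are isomorphic -/
theorem dvd_Z_tw (T : TwSys R Y cp τ) (hR : ∀ x y, x ≤ y → y ∈ R → x ∈ R)
    (hD : Good i (R \ Y) B D) (hbr : Broken (pairsX Y τ) D) [DecidableEq ι] {n : ℕ}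
    (h : (1 + X : ℤ[X]) ^ b ∣ Z {x : {x : P // x ∉ exc Y τ D} // cp (x : P) = k} i n) :
    (1 + X : ℤ[X]) ^ b ∣ Z {x : {x : P // x ∉ D} // cp (x : P) = k} i n := by
  classical
  have hbr' : ∀ x ∈ Y, τ x ∈ D ∨ x ∈ D := fun x hx =>
    hbr (τ x, x) (mem_pairsX.mpr ⟨hx, rfl⟩)
  let f : {x : {x : P // x ∉ D} // cp (x : P) = k} →
      {x : {x : P // x ∉ exc Y τ D} // cp (x : P) = k} :=
    fun x => ⟨⟨repl Y τ x.1.1, T.repl_not_mem x.1.2⟩, by
      show cp (repl Y τ x.1.1) = k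
      rw [T.repl_cp]; exact x.2⟩
  have hf : ∀ x y, f x ≤ f y ↔ x ≤ y := fun x y =>
    T.repl_le hR hD.1 hD.2.1 hbr' x.1.2 y.1.2
  have hbij : Function.Bijective f := by
    constructor
    · intro x y hxy
      exact le_antisymm ((hf x y).mp hxy.le) ((hf y x).mp hxy.ge)
    · intro y
      obtain ⟨x, hx, hxy⟩ := repl_surj y.1.2
      refine ⟨⟨⟨x, hx⟩, ?_⟩, Subtype.ext (Subtype.ext hxy)⟩
      rw [← T.repl_cp x, hxy]
      exact y.2
  let e : {x : {x : P // x ∉ D} // cp (x : P) = k} ≃o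
      {x : {x : P // x ∉ exc Y τ D} // cp (x : P) = k} :=
    { Equiv.ofBijective f hbij with
      map_rel_iff' := fun {x y} => hf x y }
  rw [Z_iso e]
  exact h

/-- component data with twins -/
theorem toTwinsL (H : CompDataL R cp k i b n0 θ B) (T : TwSys R Y cp τ)
    (hR : ∀ x y, x ≤ y → y ∈ R → x ∈ R) (hRlev : ∀ x ∈ R, i < Pool.Agent.GaussPoset.lev x)
    (hBR : ∀ x ∈ R, ¬ B x) :
    CompDataTL (R \ Y) cp k i b n0 (thX Y τ θ) B (pairsX Y τ) where
  clean := by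
    intro D hD hbr hdec n hn
    exact dvd_Z_tw T hR hD hbr (H.clean _ (T.good_exc hR hRlev hBR hD) hdec n hn)
  lev := by
    intro x hx hk h1
    by_cases hxY : x ∈ Y
    · rw [thX_of hxY] at h1
      rw [← T.lev hxY]
      exact H.lev _ (T.nat x hxY) ((T.cp x hxY).trans hk) h1
    · rw [thX_not hxY] at h1
      exact H.lev x (fun h => hx (mem_sdiff.mpr ⟨h, hxY⟩)) hk h1
  base := by
    intro x hx hk h1 y hyx hy
    by_cases hyR : y ∈ R
    · exact hBR y hyR
    · have hxR : x ∉ R := fun h => hyR (hR y x hyx h)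
      have hxY : x ∉ Y := fun h => hxR (T.sub h)
      rw [thX_not hxY] at h1
      exact H.base x hxR hk h1 y hyx hyR
  step := by
    intro x hx hk h1 y hyx hy x' hx' hyx' hn
    have hyR : ∀ {w}, w ∈ R → y ≤ w → y ∈ Y := by
      intro w hw hyw
      by_contra hcon
      exact hy (mem_sdiff.mpr ⟨hR y w hyw hw, hcon⟩)
    have hxY' : x' ∉ Y := fun h => T.anti x' h y (hyR (T.sub h) hyx'.1.le) hyx'.1
    have hxR' : x' ∉ R := fun h => hx' (mem_sdiff.mpr ⟨h, hxY'⟩)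
    rw [thX_not hxY']
    by_cases hxY : x ∈ Y
    · have hyY := hyR (T.sub hxY) hyx
      have hyx2 : y = x := by
        by_contra hne
        exact T.anti x hxY y hyY (lt_of_le_of_ne hyx hne)
      subst hyx2
      rw [thX_of hxY] at h1 ⊢
      have h2 := (T.cov (y := x') hxY).mpr hyx'
      exact H.step _ (T.nat _ hxY) ((T.cp _ hxY).trans hk) h1 _ le_rfl (T.nat _ hxY) x' hxR' h2
        (not_le_of_gt h2.1)
    · have hxR : x ∉ R := fun h => hx (mem_sdiff.mpr ⟨h, hxY⟩)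
      rw [thX_not hxY] at h1 ⊢
      by_cases hyY : y ∈ Y
      · have hne : y ≠ x := fun h => hxY (h ▸ hyY)
        have h2 := (T.cov (y := x') hyY).mpr hyx'
        have h3 := (T.up y hyY x).mpr (lt_of_le_of_ne hyx hne)
        exact H.step x hxR hk h1 _ h3.le (T.nat _ hyY) x' hxR' h2 hn
      · exact H.step x hxR hk h1 y hyx (fun h => hy (mem_sdiff.mpr ⟨h, hyY⟩)) x' hxR' hyx' hn
  le := by
    intro x hx hk
    by_cases hxY : x ∈ Y
    · rw [thX_of hxY, ← T.lev hxY]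
      exact H.le _ (T.nat x hxY) ((T.cp x hxY).trans hk)
    · rw [thX_not hxY]
      exact H.le x (fun h => hx (mem_sdiff.mpr ⟨h, hxY⟩)) hk

end Tw

section Assembly

variable {i n0 : ℕ} {N : Tops P → Finset P} {b : Tops P → ℕ} {θ : Tops P → P → ℕ}
  {B : Tops P → P → Prop} {Y : Finset P} {τ : P → P}

/-- assembly: truncated data of all tops and twins of natural elements -/
theorem farT_of_topsL (hgr : GradedBelow P) (HN : NatSys N) (hRlev : ∀ x ∈ unnat N, i < lev x)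
    (H : ∀ t, CompDataL (unnat N) topOf t i (b t) n0 (fun x => θ (topOf x) x)
      (fun x => x ∉ unnat N ∧ B (topOf x) x))
    (T : TwSys (unnat N) Y topOf τ)
    (htw : ∀ x ∈ Y, TwinPair i (thX Y τ (fun x => θ (topOf x) x)) n0 (τ x) x) :
    FarT P i (unnat N \ Y) (∑ t, b t)
      (hcan (unnat N \ Y) (thX Y τ (fun x => θ (topOf x) x))) n0 := by
  refine farT_of_compTL hgr (T.lower HN.lower) (fun x hx => hRlev x (mem_sdiff.mp hx).1) topOf
    (T.cp' HN.cp) b _ (fun x => x ∉ unnat N ∧ B (topOf x) x)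
    (fun x hx h => h.1 (mem_sdiff.mp hx).1) (pairsX Y τ) n0 ?_ ?_ ?_ ?_
  · intro t
    exact toTwinsL (H t) T HN.lower hRlev (fun x hx h => h.1 hx)
  · intro t ht
    rw [mem_pairsX] at ht
    have h1 := htw t.2 ht.1
    rw [← ht.2] at h1
    exact h1
  · intro t ht y hy
    rw [mem_pairsX] at ht
    rw [mem_sdiff]
    exact ⟨HN.lower y _ hy.le (T.sub ht.1), fun h => T.anti _ ht.1 y h hy⟩
  · intro t ht
    rw [mem_pairsX] at ht
    rw [mem_sdiff, mem_sdiff, ht.2]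
    exact ⟨fun h => T.nat _ ht.1 h.1, fun h => h.2 ht.1⟩

/-- the truncated data from a natural set -/
theorem compL_of_natTop {t : Tops P} {Bt : P → Prop} (H : NatTop i t (b t) (N t) (θ t) Bt)
    (HN : NatSys N) (n0 : ℕ) (hB : ∀ x ∈ N t, B t x ↔ Bt x) :
    CompDataL (unnat N) topOf t i (b t) n0 (fun x => θ (topOf x) x)
      (fun x => x ∉ unnat N ∧ B (topOf x) x) := by
  refine CompDataL.of (H.data N HN rfl _ _ ?_ ?_) n0
  · intro x hx
    simp only [HN.topOf_eq hx]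
  · intro x hx
    simp only [HN.topOf_eq hx, (HN.mem_iff.mp hx).1, not_false_eq_true, true_and]
    exact hB x hx

/-- the truncated data from local data -/
theorem compL_of_locL {t : Tops P} {Bt : P → Prop} (H : Sg.LocL i (b t) n0 (N t) (θ t) Bt)
    (HN : NatSys N) (hB : ∀ x ∈ N t, B t x ↔ Bt x) :
    CompDataL (unnat N) topOf t i (b t) n0 (fun x => θ (topOf x) x)
      (fun x => x ∉ unnat N ∧ B (topOf x) x) := by
  refine H.data HN _ _ ?_ ?_
  · intro x hx
    simp only [HN.topOf_eq hx]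
  · intro x hx
    simp only [HN.topOf_eq hx, (HN.mem_iff.mp hx).1, not_false_eq_true, true_and]
    exact hB x hx

end Assembly

end Pool.Agent.GaussPoset.F6
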