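import Pool.Agent.W_448f6_h94.FxA
import Pool.Agent.W_448s8f_h76.FiD
import Pool.Agent.W_448s8f_h76.FiF

/-!
The natural system at window `i`, level `2 m`, with truncated components (MP_448cb3_co, S8,
`j = 14`, window 6; after `FiA`, `FiD` of helper76).
-/

namespace Pool.Agent.GaussPoset.F6

set_option linter.unusedSectionVars false

open Polynomial Finset Fi

universe u

variable {P : Type u} [Fintype P] [PartialOrder P] [DecidableEq P] {r i m K : ℕ}
  {N : Tops P → Finset P} {b : Tops P → ℕ} {θ : Tops P → P → ℕ}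

/-- the profile of the end of E7 at the level 14 -/
def pE : List ℕ := [0, 0, 1, 1, 1, 1, 2, 1, 1, 1, 1]

/-- the types of the components at window `i` -/
inductive TyE (i m K : ℕ) (N : Tops P → Finset P) (t : Tops P) (b : ℕ) (θ : P → ℕ) : Prop
  | light (h1 : N t = onlyB t) (h2 : θ = fun x => lev x - i) (h3 : b = 1)
      (h5 : ∀ x, x ≤ (t : P) → lev x ≤ 2 * m → x ∈ onlyB t) (h6 : ∃ x ≤ (t : P), lev x = i)
      (h7 : ∀ v, v ≤ (t : P) → lev v = 2 * m → (Win.uc v).card = 1 → ∃ p ∈ PL i m,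
        Prof m v (gD p))
      (h8 : cn 2 (t : P) ≤ 1)
  | rect (Nc : Finset P) (co : P → ℕ × ℕ) (h0 : RectNat (2 * m) i t b Nc co)
      (h1 : N t = natR Nc co) (h2 : θ = thR i b Nc co) (h3 : NopT m t)
  | stair (Nc : Finset P) (co : P → ℕ × ℕ) (h0 : StairNat (2 * m) i t Nc co)
      (h1 : N t = natS Nc co) (h2 : θ = thS i Nc co) (h3 : b = i / 2 + 1) (h4 : NopT m t)
  | oth (h1 : ∃ B, Sg.LocL i b (K - 1) (N t) θ B) (h2 : lowPart (2 * m) (t : P) ⊆ N t)
      (h3 : ∀ x ∈ N t, x ≤ (t : P)) (h4 : ∀ x ∈ N t, ∀ y, x ≤ y → y ∈ N t)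
      (h5 : ∀ v w, v ≤ (t : P) → w ≤ (t : P) → lev v = 2 * m → lev w = 2 * m → v = w)
      (h6 : ∀ z v, lev z = 2 * m + 1 → v ≤ (t : P) → lev v = 2 * m → Pend z v → z ∈ N t)
      (h7 : ∀ v, v ≤ (t : P) → lev v = 2 * m → Prof m v (gD pE) ∧ θ v = 4 ∧
        (Win.uc v).card = 1)
      (h8 : cn 2 (t : P) ≤ 1)
      (h9 : ∀ z ∈ unnat N, ∀ x ∈ N t, 2 * m + 1 ≤ lev x → z ⋖ x → K ≤ ct i (θ x + 1) z)
      (h10 : ∀ z ∈ unnat N, ∀ x ∈ N t, lev x = 2 * m + 1 → ¬ ∀ w, x < w ↔ z < w)

/-- the context -/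
structure WE (r i m K : ℕ) (N : Tops P → Finset P) (b : Tops P → ℕ) (θ : Tops P → P → ℕ) :
    Prop where
  gt : Win.GoodTo P r (2 * m)
  hr : 2 * m + 1 ≤ r
  hi : 4 ≤ i
  him : i ≤ m
  hmi : m ≤ i + 1
  tc : ∀ t, TyE i m K N t (b t) (θ t)
  sum_b : ∑ t, b t = (lv P i).card
  kapR : KapR i m K
  kapS : KapS i m K
  K_le : K ≤ (2 * m + 1 - i) ^ 2 + 1

lemma WE.lowUp (W : WE r i m K N b θ) (t : Tops P) :
    ∀ x ∈ lowPart (2 * m) (t : P), ∀ y, x ≤ y → y ∈ lowPart (2 * m) (t : P) := by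
  intro x hx y hxy
  rw [mem_lowPart] at hx ⊢
  refine ⟨Cp.up_le W.gt.H W.gt.good t.2 hx.1 hx.2 hxy, ?_⟩
  rcases eq_or_lt_of_le hxy with h | h
  · rw [← h]; exact hx.2
  · have := lev_strictAnti h; omega

/-- natural sets of the first three types -/
lemma WE.natTop (W : WE r i m K N b θ) (t : Tops P) :
    (∃ B, NatTop i t (b t) (N t) (θ t) B) ∨ ((∃ B, Sg.LocL i (b t) (K - 1) (N t) (θ t) B) ∧
      (∀ x ∈ N t, x ≤ (t : P)) ∧ ∀ x ∈ N t, ∀ y, x ≤ y → y ∈ N t) := by
  have h4 := W.hi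
  have him := W.him
  have hgr := W.gt.H.gradedBelow
  rcases W.tc t with ⟨h1, h2, h3, h5, h6, h7, h8⟩ | ⟨Nc, co, h0, h1, h2, h3⟩ |
    ⟨Nc, co, h0, h1, h2, h3, h4⟩ | ⟨h1, h2, h3, h4, -, -, -, -, -, -⟩
  · left
    rw [h1, h2, h3]
    exact ⟨_, natTop_light hgr (fun x hx hxi => h5 x hx (by omega)) h6⟩
  · left
    rw [h1, h2]
    exact ⟨_, h0.natTop hgr (by omega)⟩
  · left
    rw [h1, h2, h3]
    exact ⟨_, h0.natTop hgr (by omega) (by omega)⟩
  · exact Or.inr ⟨h1, h3, h4⟩

lemma WE.natSys (W : WE r i m K N b θ) : NatSys N where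
  up := by
    intro t
    rcases W.natTop t with ⟨B, h⟩ | h
    · exact h.up
    · exact h.2.2
  le_t := by
    intro t
    rcases W.natTop t with ⟨B, h⟩ | h
    · exact h.le_t
    · exact h.2.1

lemma WE.low (W : WE r i m K N b θ) {x : P} (hx : lev x ≤ 2 * m) : x ∉ unnat N := by
  intro h
  refine mem_unnat.mp h (topOf x) ?_
  rcases W.tc (topOf x) with ⟨h1, h2, h3, h5, h6, h7, h8⟩ | ⟨Nc, co, h0, h1, h2, h3⟩ |
    ⟨Nc, co, h0, h1, h2, h3, h4⟩ | ⟨h1, h2, h3, h4, -, -, -, -, -, -⟩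
  · rw [h1]; exact h5 x (le_topOf x) hx
  · rw [h1]; exact mem_natR.mpr (Or.inl (h0.strip (mem_lowPart.mpr ⟨le_topOf x, hx⟩)))
  · rw [h1]; exact mem_natS.mpr (Or.inl (h0.strip (mem_lowPart.mpr ⟨le_topOf x, hx⟩)))
  · exact h2 (mem_lowPart.mpr ⟨le_topOf x, hx⟩)

lemma WE.lt_lev (W : WE r i m K N b θ) {x : P} (hx : x ∈ unnat N) : 2 * m < lev x := by
  by_contra hcon
  exact W.low (not_lt.mp hcon) hx

/-- the kinds of natural elements of light components -/
theorem WE.light_case (W : WE r i m K N b θ) {x : P} (hx : x ∉ unnat N)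
    (h1 : N (topOf x) = onlyB (topOf x)) (h2 : θ (topOf x) = fun x => lev x - i) :
    Fi.Full i m N θ x := by
  have H := W.gt.H
  have HN := W.natSys
  have hxt : x ∈ N (topOf x) := HN.mem_iff.mpr ⟨hx, rfl⟩
  have h4 := W.hi
  have him := W.him
  generalize ht : topOf x = t at hxt h1 h2
  have hs : ∀ z ∈ unnat N, ∃ s : P, lev s = 0 ∧ z ≤ s ∧ s ≠ t := by
    intro z hz
    have h7 : z ∉ onlyB t := by
      rw [← h1]
      exact mem_unnat.mp hz t
    rw [mem_onlyB] at h7
    push Not at h7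
    exact h7
  refine ⟨by rw [ht, h2], ?_, ?_⟩
  · intro z hz hzx k _ hk
    obtain ⟨s, hs1, hs2, hs3⟩ := hs z hz
    exact two_le_nab_join HN H.gradedBelow hxt hzx hs1 hs3 hs2 hk
  · intro z hz h
    obtain ⟨s, hs1, hs2, hs3⟩ := hs z hz
    have h7 := W.lt_lev hz
    have h8 : z < s := lt_of_le_of_ne hs2 (by rintro rfl; omega)
    exact hs3 (HN.top_eq hxt hs1 ((h s).mpr h8).le)

/-- the kinds of natural elements of rectangles -/
theorem WE.rect_case (W : WE r i m K N b θ) {x : P} (hx : x ∉ unnat N) {Nc : Finset P}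
    {co : P → ℕ × ℕ} (h0 : RectNat (2 * m) i (topOf x) (b (topOf x)) Nc co)
    (h1 : N (topOf x) = natR Nc co) (h2 : θ (topOf x) = thR i (b (topOf x)) Nc co)
    (h3 : NopT m (topOf x)) : Fi.Full i m N θ x ∨ ∃ Nc co, InR i m N b θ x Nc co := by
  have H := W.gt.H
  have HN := W.natSys
  have hxt : x ∈ N (topOf x) := HN.mem_iff.mpr ⟨hx, rfl⟩
  have h4 := W.hi
  have him := W.him
  generalize ht : topOf x = t at hxt h0 h1 h2 h3
  -- rectangles
  by_cases hJ : x ∈ junk (fun _ => True) Nc co ∨ x ∈ junk (fun _ => True) Nc (swp co)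
  · left
    refine ⟨?_, ?_, ?_⟩
    · rw [ht, h2]
      unfold thR
      rw [if_pos hJ]
    · intro z hz hzx k hk hkx
      refine rect_two_le_nab H h0 h1 hz hzx ?_ (by omega) hkx
      rcases hJ with h | h
      · exact Or.inl h
      · exact Or.inr (Or.inl h)
    · intro z hz h
      refine mem_unnat.mp hz t ?_
      rw [h1, mem_natR]
      rcases hJ with h' | h'
      · exact Or.inr (Or.inl (junk_twin h' h))
      · exact Or.inr (Or.inr (junk_twin h' h))
  · have hxN : x ∈ Nc := by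
      rw [h1, mem_natR] at hxt
      rcases hxt with h | h | h
      · exact h
      · exact absurd (Or.inl h) hJ
      · exact absurd (Or.inr h) hJ
    have hl := h0.chart.lev x hxN
    have hb1 := h0.b_two
    have hb2 := h0.b_le
    have hrow : b t = i + 1 ∨ (co x).1 ≤ b t - 1 := by
      rcases h0.rows with h | h
      · exact Or.inl h
      · exact Or.inr (h x hxN)
    by_cases h7 : (co x).1 = 0 ∨ (co x).2 = 0
    · left
      refine ⟨?_, ?_, ?_⟩
      · rw [ht, h2]
        unfold thR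
        rw [if_neg hJ]
        omega
      · intro z hz hzx k hk hkx
        exact rect_two_le_nab H h0 h1 hz hzx (Or.inr (Or.inr ⟨hxN, h7⟩)) (by omega) hkx
      · intro z hz h
        have h8 := W.lt_lev hz
        rw [← lev_eq_of_up h] at h8
        rcases h7 with h7 | h7
        · obtain ⟨u, hu, hcu⟩ := h0.chart.low x hxN (0, (co x).2 - 1)
            ⟨Nat.zero_le _, Nat.sub_le _ _⟩ trivial
          refine straight_twin H h0 h1 hxN hu ?_ ?_ ?_ hz h
          · rw [hcu]
            exact Or.inr ⟨by simp only; omega, by simp only; omega⟩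
          · intro y hy hp
            rw [hcu]
            rcases hp with hp | hp
            · omega
            · exact Prod.ext (by simp only; omega) (by simp only; omega)
          · rw [hcu]
            exact Or.inl rfl
        · obtain ⟨u, hu, hcu⟩ := h0.chart.low x hxN ((co x).1 - 1, 0)
            ⟨Nat.sub_le _ _, Nat.zero_le _⟩ trivial
          refine straight_twin H h0 h1 hxN hu ?_ ?_ ?_ hz h
          · rw [hcu]
            exact Or.inl ⟨by simp only; omega, by simp only; omega⟩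
          · intro y hy hp
            rw [hcu]
            rcases hp with hp | hp
            · exact Prod.ext (by simp only; omega) (by simp only; omega)
            · omega
          · rw [hcu]
            exact Or.inr rfl
    · right
      refine ⟨Nc, co, ?_, ?_, hxN, by omega, by omega, ?_, ?_⟩
      · rw [ht]; exact h0
      · rw [ht]; exact h1
      · rw [ht, h2]
        unfold thR
        rw [if_neg hJ]
        omega
      · rw [ht]; exact h3

/-- the kinds of natural elements of stairs -/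
theorem WE.stair_case (W : WE r i m K N b θ) {x : P} (hx : x ∉ unnat N) {Nc : Finset P}
    {co : P → ℕ × ℕ} (h0 : StairNat (2 * m) i (topOf x) Nc co)
    (h1 : N (topOf x) = natS Nc co) (h2 : θ (topOf x) = thS i Nc co)
    (h3 : b (topOf x) = i / 2 + 1) (h4 : NopT m (topOf x)) :
    Fi.Full i m N θ x ∨ ∃ Nc co, InS i m N b θ x Nc co := by
  have H := W.gt.H
  have HN := W.natSys
  have hxt : x ∈ N (topOf x) := HN.mem_iff.mpr ⟨hx, rfl⟩
  have hi4 := W.hi
  have him := W.him
  generalize ht : topOf x = t at hxt h0 h1 h2 h3 h4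
  -- stairs
  by_cases hJ : x ∈ junk (fun c => c.1 ≤ c.2) Nc co
  · left
    refine ⟨?_, ?_, ?_⟩
    · rw [ht, h2]
      unfold thS
      rw [if_pos hJ]
    · intro z hz hzx k hk hkx
      exact stair_two_le_nab H h0 h1 hz hzx (Or.inl hJ) hk hkx
    · intro z hz h
      refine mem_unnat.mp hz t ?_
      rw [h1, mem_natS]
      exact Or.inr (junk_twin hJ h)
  · have hxN : x ∈ Nc := by
      rw [h1, mem_natS] at hxt
      rcases hxt with h | h
      · exact h
      · exact absurd h hJ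
    have hl := h0.chart.lev x hxN
    by_cases h7 : (co x).1 = 0
    · left
      refine ⟨?_, ?_, ?_⟩
      · rw [ht, h2]
        unfold thS
        rw [if_neg hJ]
        omega
      · intro z hz hzx k hk hkx
        exact stair_two_le_nab H h0 h1 hz hzx (Or.inr ⟨hxN, h7⟩) hk hkx
      · intro z hz h
        have h8 := W.lt_lev hz
        rw [← lev_eq_of_up h] at h8
        obtain ⟨u, hu, hcu⟩ := h0.chart.low x hxN (0, (co x).2 - 1)
          ⟨Nat.zero_le _, Nat.sub_le _ _⟩ (Nat.zero_le _)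
        refine straight_twinS H h0 (by omega) h1 hxN hu ?_ ?_ ?_ hz h
        · rw [hcu]
          exact Or.inr ⟨by simp only; omega, by simp only; omega⟩
        · intro y hy hp
          rw [hcu]
          rcases hp with hp | hp
          · omega
          · exact Prod.ext (by simp only; omega) (by simp only; omega)
        · rw [hcu]
    · right
      refine ⟨Nc, co, ?_, ?_, ?_, ?_, hxN, by omega, ?_, ?_⟩
      · rw [ht]; exact h0
      · rw [ht]; exact h1
      · rw [ht]; exact h2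
      · rw [ht]; exact h3
      · rw [ht, h2]
        unfold thS
        rw [if_neg hJ]
      · rw [ht]; exact h4

/-- elements of truncated components -/
structure Ot (i m K : ℕ) (N : Tops P → Finset P) (θ : Tops P → P → ℕ) (x : P) : Prop where
  mem : x ∈ N (topOf x)
  single : ∀ v w, v ≤ (topOf x : P) → w ≤ (topOf x : P) → Pool.Agent.GaussPoset.lev v = 2 * m →
    Pool.Agent.GaussPoset.lev w = 2 * m → v = w
  pend : ∀ z v, Pool.Agent.GaussPoset.lev z = 2 * m + 1 → v ≤ (topOf x : P) →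
    Pool.Agent.GaussPoset.lev v = 2 * m → Pend z v → z ∈ N (topOf x)
  prof : ∀ v, v ≤ (topOf x : P) → Pool.Agent.GaussPoset.lev v = 2 * m →
    Prof m v (gD pE) ∧ θ (topOf x) v = 4 ∧ (Win.uc v).card = 1
  kap : ∀ z ∈ unnat N, ∀ y ∈ N (topOf x), 2 * m + 1 ≤ Pool.Agent.GaussPoset.lev y → z ⋖ y →
    K ≤ ct i (θ (topOf x) y + 1) z
  tw : ∀ z ∈ unnat N, ∀ y ∈ N (topOf x), Pool.Agent.GaussPoset.lev y = 2 * m + 1 →
    ¬ ∀ w, y < w ↔ z < w

/-- the kinds of natural elements -/
theorem WE.cases (W : WE r i m K N b θ) {x : P} (hx : x ∉ unnat N) : Fi.Full i m N θ x ∨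
    (∃ Nc co, InR i m N b θ x Nc co) ∨ (∃ Nc co, InS i m N b θ x Nc co) ∨ Ot i m K N θ x := by
  have hxt : x ∈ N (topOf x) := W.natSys.mem_iff.mpr ⟨hx, rfl⟩
  rcases W.tc (topOf x) with ⟨h1, h2, h3, h5, h6, h7, h8⟩ | ⟨Nc, co, h0, h1, h2, h3⟩ |
    ⟨Nc, co, h0, h1, h2, h3, h4⟩ | ⟨h1, h2, h3, h4, h5, h6, h7, h8, h9, h10⟩
  · exact Or.inl (W.light_case hx h1 h2)
  · rcases W.rect_case hx h0 h1 h2 h3 with h | h
    · exact Or.inl h
    · exact Or.inr (Or.inl h)
  · rcases W.stair_case hx h0 h1 h2 h3 h4 with h | h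
    · exact Or.inl h
    · exact Or.inr (Or.inr (Or.inl h))
  · exact Or.inr (Or.inr (Or.inr ⟨hxt, h5, h6, h7, h9, h10⟩))

end Pool.Agent.GaussPoset.F6
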