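import Pool.Agent.W_448f6_h94.FxB
import Pool.Agent.W_448cc7_h94.CsB

/-!
Twins, the truncated data, the boundary elements of level at least `2 m + 2` (MP_448cb3_co, S8,
`j = 14`, window 6; after `FiB` of helper76).
-/

namespace Pool.Agent.GaussPoset.F6

set_option linter.unusedSectionVars false

open Polynomial Finset Fi

universe u

variable {P : Type u} [Fintype P] [PartialOrder P] [DecidableEq P] {r i m K : ℕ}
  {N : Tops P → Finset P} {b : Tops P → ℕ} {θ : Tops P → P → ℕ}

theorem WE.twSys (W : WE r i m K N b θ) : TwSys (unnat N) (twY (2 * m) N) topOf (twT N) :=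
  twSys_of W.gt.H W.natSys

/-- natural elements of level at least `2 m + 1` -/
theorem WE.kap (W : WE r i m K N b θ) {x : P} (hx : x ∉ unnat N) (hl : 2 * m + 1 ≤ lev x) :
    Fi.Full i m N θ x ∨ K ≤ ct i (θ (topOf x) x + 1) x + (θ (topOf x) x + 1) ∨
      Ot i m K N θ x := by
  have h4 := W.hi
  have him := W.him
  rcases W.cases hx with h | ⟨Nc, co, h⟩ | ⟨Nc, co, h⟩ | h
  · exact Or.inl h
  · right; left
    refine Fi.kap_chart W.kapR (by omega) h.rect.chart h.mem h.fst h.snd hl ?_
    rw [h.th]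
  · right; left
    refine Fi.kap_chartS W.kapS (by omega) h.stair.chart h.mem h.fst hl ?_
    rw [h.th]
  · exact Or.inr (Or.inr h)

lemma WE.tw_inner (W : WE r i m K N b θ) {x : P} (hx : x ∈ twY (2 * m) N) :
    (∃ Nc co, InR i m N b θ (twT N x) Nc co) ∨ ∃ Nc co, InS i m N b θ (twT N x) Nc co := by
  have h1 := mem_twY.mp hx
  have h3 := twT_spec h1.2.2
  rcases W.cases h3.1 with h | h | h | h
  · exact absurd h3.2 (h.tw x h1.1)
  · exact Or.inl h
  · exact Or.inr h
  · have h5 := W.twSys.lev hx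
    exact absurd h3.2 (h.tw x h1.1 _ h.mem (by rw [h5]; exact h1.2.1))

lemma WE.tw_kap (W : WE r i m K N b θ) {x : P} (hx : x ∈ twY (2 * m) N) :
    K ≤ ct i (θ (topOf (twT N x)) (twT N x) + 1) (twT N x) +
      (θ (topOf (twT N x)) (twT N x) + 1) := by
  have h1 := mem_twY.mp hx
  have h3 := twT_spec h1.2.2
  have h5 := W.twSys.lev hx
  rcases W.kap h3.1 (by omega) with h | h | h
  · exact absurd h3.2 (h.tw x h1.1)
  · exact h
  · exact absurd h3.2 (h.tw x h1.1 _ h.mem (by rw [h5]; exact h1.2.1))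

lemma WE.tw_th (W : WE r i m K N b θ) {x : P} (hx : x ∈ twY (2 * m) N) :
    1 ≤ θ (topOf (twT N x)) (twT N x) ∧ θ (topOf (twT N x)) (twT N x) ≤ 2 * m - i := by
  have h1 := mem_twY.mp hx
  have h5 := W.twSys.lev hx
  have h4 := W.hi
  have him := W.him
  rcases W.tw_inner hx with ⟨Nc, co, h⟩ | ⟨Nc, co, h⟩
  · have h6 := h.rect.chart.lev _ h.mem
    have h7 := h.fst
    have h8 := h.snd
    have h9 := h.th
    omega
  · have h6 := h.stair.chart.lev _ h.mem
    have h7 := h.fst
    have h8 : (co (twT N x)).1 ≤ (co (twT N x)).2 := h.stair.chart.mem _ h.mem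
    have h9 := h.th
    omega

/-- the twins are harmless below energy `K - 1` -/
theorem WE.twinPair (W : WE r i m K N b θ) {x : P} (hx : x ∈ twY (2 * m) N) :
    TwinPair i (thX (twY (2 * m) N) (twT N) (fun x => θ (topOf x) x)) (K - 1) (twT N x) x := by
  classical
  have T := W.twSys
  have h1 := mem_twY.mp hx
  have him := W.him
  have hlev : lev (twT N x) = 2 * m + 1 := by rw [T.lev hx]; exact h1.2.1
  have hnY : twT N x ∉ twY (2 * m) N := fun h => T.nat x hx (mem_twY.mp h).1
  obtain ⟨h3, h4⟩ := W.tw_th hx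
  have h5 := W.tw_kap hx
  have hth : thX (twY (2 * m) N) (twT N) (fun x => θ (topOf x) x) (twT N x) =
      θ (topOf (twT N x)) (twT N x) := thX_not hnY
  have hth' : thX (twY (2 * m) N) (twT N) (fun x => θ (topOf x) x) x =
      θ (topOf (twT N x)) (twT N x) := thX_of hx
  refine ⟨?_, T.up x hx, ?_, ?_, ?_, ?_, ?_⟩
  · intro h
    exact T.nat x hx (h.symm ▸ h1.1)
  · rw [hth]; exact h3
  · rw [hth, hth']
  · rw [hth, hlev]; omega
  · rw [hth]
    have h6 : ct i (θ (topOf (twT N x)) (twT N x) + 1) (twT N x) ≤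
        ∑ y, (if twT N x ≤ y then lev y - i else 0) := by
      rw [ct_eq_sum]
      refine Finset.sum_le_sum fun y _ => ?_
      split_ifs
      · exact Nat.min_le_right _ _
      · exact le_rfl
    omega
  · rw [hth]
    have h6 := ct_succ i (θ (topOf (twT N x)) (twT N x) + 1) (twT N x)
    rw [hlev, Nat.min_eq_left (by omega)] at h6
    omega

/-- the data of all tops -/
lemma WE.compL (W : WE r i m K N b θ) : ∃ B : Tops P → P → Prop, ∀ t,
    Dd.CompDataL (unnat N) topOf t i (b t) (K - 1) (fun x => θ (topOf x) x)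
      (fun x => x ∉ unnat N ∧ B (topOf x) x) := by
  have h : ∀ t, ∃ Bt : P → Prop, NatTop i t (b t) (N t) (θ t) Bt ∨
      Sg.LocL i (b t) (K - 1) (N t) (θ t) Bt := by
    intro t
    rcases W.natTop t with ⟨B, h⟩ | ⟨⟨B, h⟩, -⟩
    · exact ⟨B, Or.inl h⟩
    · exact ⟨B, Or.inr h⟩
  choose B hB using h
  refine ⟨B, fun t => ?_⟩
  rcases hB t with h | h
  · exact compL_of_natTop h W.natSys _ fun _ _ => Iff.rfl
  · exact compL_of_locL h W.natSys fun _ _ => Iff.rfl

/-- truncated data at window `i` -/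
theorem WE.farT (W : WE r i m K N b θ) : FarT P i (r2 (2 * m) N) (lv P i).card
    (h2 (2 * m) N θ) (K - 1) := by
  obtain ⟨B, hB⟩ := W.compL
  have h4 := W.hi
  have him := W.him
  have h := farT_of_topsL W.gt.H.gradedBelow W.natSys (fun x hx => by
    have := W.lt_lev hx
    omega) hB W.twSys (fun x hx => W.twinPair hx)
  rw [W.sum_b] at h
  exact h

lemma WE.sq_ge (W : WE r i m K N b θ) {l : ℕ} (hl : 2 * m + 2 - i ≤ l) : K ≤ l ^ 2 := by
  have h0 := W.K_le
  have him := W.him
  obtain ⟨a, ha⟩ : ∃ a, 2 * m + 1 - i = a := ⟨_, rfl⟩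
  rw [ha] at h0
  have h1 : (a + 1) ^ 2 ≤ l ^ 2 := Nat.pow_le_pow_left (by omega) 2
  nlinarith

/-- the boundary: level `2 m + 1` or large cost -/
theorem WE.bd (W : WE r i m K N b θ) {z : P} (hz : z ∈ bdR (r2 (2 * m) N)) :
    lev z = 2 * m + 1 ∨ K ≤ cst i (h2 (2 * m) N θ) z := by
  classical
  have H := W.gt.H
  have h4 := W.hi
  have him := W.him
  have T := W.twSys
  have hzR : z ∈ unnat N := (mem_sdiff.mp (mem_filter.mp hz).1).1
  have hlz := W.lt_lev hzR
  by_cases hl : lev z = 2 * m + 1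
  · exact Or.inl hl
  right
  obtain ⟨u, hu, hzu, hh⟩ := hcan_spec
    (θ := thX (twY (2 * m) N) (twT N) (fun x => θ (topOf x) x)) hz
  have hlu := (H.covBy_iff.mp hzu).2
  have hc : ∀ k, h2 (2 * m) N θ z = k → cst i (h2 (2 * m) N θ) z = ct i k z := by
    intro k hk
    unfold ct cst ez
    rw [hk]
  have key : ∀ (u' : P) (k : ℕ), ct i k u = ct i k u' → K ≤ ct i k u' + k → k ≤ lev z - i →
      h2 (2 * m) N θ z = k → K ≤ cst i (h2 (2 * m) N θ) z := by
    intro u' k h3 h4 h5 h6
    have h7 := ct_cov (i := i) (k := k) hzu.1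
    rw [Nat.min_eq_left h5] at h7
    rw [hc k h6]
    omega
  by_cases huY : u ∈ twY (2 * m) N
  · rw [thX_of huY] at hh
    have h3 := W.tw_th huY
    exact key (twT N u) _ (ct_congr_up fun w => (T.up u huY w).symm) (W.tw_kap huY) (by omega) hh
  · have huR : u ∉ unnat N := fun h => hu (mem_sdiff.mpr ⟨h, huY⟩)
    rw [thX_not huY] at hh
    rcases W.kap huR (by omega) with hF | hI | hO
    · rw [hF.th] at hh
      have h3 := sq_le_cst (i := i) (h := h2 (2 * m) N θ) (z := z) (by omega)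
        (by show h2 (2 * m) N θ z = _; rw [show h2 (2 * m) N θ z = _ from hh]; omega) (by
          intro k hk hk2
          exact hF.two z hzR hzu.le k (by omega) (by omega))
      exact (W.sq_ge (by omega)).trans h3
    · have h5 := W.farT.le_lev z hz
      exact key u _ rfl hI (by rw [show h2 (2 * m) N θ z = _ from hh] at h5; exact h5) hh
    · rw [hc _ hh]
      exact hO.kap z hzR u hO.mem (by omega) hzu

end Pool.Agent.GaussPoset.F6
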