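import Pool.Agent.W_448f6_h94.FxC

/-!
Fold ends; the elements of level `2 m + 1` below a fold end (MP_448cb3_co, S8, `j = 14`,
window 6; after `FiC` of helper76).
-/

namespace Pool.Agent.GaussPoset.F6

set_option linter.unusedSectionVars false

open Polynomial Finset Fi

universe u

variable {P : Type u} [Fintype P] [PartialOrder P] [DecidableEq P] {r i m K : ℕ}
  {N : Tops P → Finset P} {b : Tops P → ℕ} {θ : Tops P → P → ℕ}

lemma WE.nab_le_cn (W : WE r i m K N b θ) {v : P} (hl : lev v ≤ 2 * m) (l : ℕ) :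
    nab l v ≤ cn l (topOf v : P) := by
  classical
  unfold nab cn
  refine Finset.card_le_card fun x hx => ?_
  rw [mem_filter] at hx ⊢
  refine ⟨hx.1, ?_⟩
  rw [W.natSys.cp v x hx.2 (W.low hl)]
  exact le_topOf x

theorem WE.fold_typ (W : WE r i m K N b θ) {x : P} (hx : Fd m x) :
    ∃ Nc co, Fi.FI i m N b θ x Nc co := by
  have H := W.gt.H
  have h4 := W.hi
  have him := W.him
  obtain ⟨hl, hu, h2⟩ := hx
  have hc := W.nab_le_cn hl.le 2
  have hxl : x ∈ lowPart (2 * m) (topOf x : P) := mem_lowPart.mpr ⟨le_topOf x, hl.le⟩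
  rcases W.tc (topOf x) with ⟨g1, g2, g3, g5, g6, g7, g8⟩ | ⟨Nc, co, g0, g1, g2, g3⟩ |
    ⟨Nc, co, g0, g1, g2, g3, g4⟩ | ⟨g1, g2, g3, g4, g5, g6, g7, g8, g9, g10⟩
  · omega
  · exfalso
    have hxN := g0.strip hxl
    have hcl := g0.chart.lev x hxN
    have h0 : (co x).1 = 0 ∨ (co x).2 = 0 := by
      by_contra hcon
      have := chart_inner_uc g0.chart H hxN (by omega) (by omega)
      omega
    rw [nab_chart g0.chart hxN] at h2
    have := card_cellsAt_true (l := 2) (p := co x) (by omega)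
    omega
  · have hxN := g0.strip hxl
    have hcl := g0.chart.lev x hxN
    have hS : (co x).1 ≤ (co x).2 := g0.chart.mem x hxN
    have h5 : (co x).1 ≠ 0 := by
      intro h5
      rw [nab_chart g0.chart hxN] at h2
      have := card_cellsAt_shift (l := 2) (p := co x) hS (by omega)
      omega
    have h6 : (co x).1 = (co x).2 := by
      by_contra hcon
      have := chartS_inner_uc g0.chart H hxN (by omega) (by omega)
      omega
    exact ⟨Nc, co, g0, g1, g2, g3, hxN, Prod.ext (by simp only; omega) (by simp only; omega), g4⟩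
  · omega

lemma WE.fold_th (W : WE r i m K N b θ) {x : P} (hx : Fd m x) :
    θ (topOf x) x = (m - 2 * (i / 2)) + (m - i) := by
  obtain ⟨Nc, co, h⟩ := W.fold_typ hx
  have him := W.him
  have h4 := W.hi
  rw [h.th]
  unfold thS
  rw [if_neg (fold_not_junk h.stair.chart h.mem (by rw [h.cell]; show 1 ≤ m; omega)), h.cell]

lemma WE.fold_prof (W : WE r i m K N b θ) {x : P} (hx : Fd m x) : Prof m x (pF m) := by
  obtain ⟨Nc, co, h⟩ := W.fold_typ hx
  intro d hd
  rw [nab_chart h.stair.chart h.mem, h.cell]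
  have := card_cellsAt_shift (l := 2 * m - d) (p := (m, m)) le_rfl (by simp only; omega)
  simp only at this
  unfold pF
  omega

/-- one fold end per top -/
lemma WE.fold_unique (W : WE r i m K N b θ) {x x' : P} (hx : Fd m x) (hx' : Fd m x')
    (ht : topOf x = topOf x') : x = x' := by
  have him := W.him
  have h4 := W.hi
  have H := W.gt.H
  obtain ⟨Nc, co, h⟩ := W.fold_typ hx
  have h2 : x' ∈ Nc := h.stair.strip (mem_lowPart.mpr ⟨by rw [ht]; exact le_topOf x', hx'.1.le⟩)
  have h3 := h.stair.chart.lev x' h2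
  have hS : (co x').1 ≤ (co x').2 := h.stair.chart.mem x' h2
  have h5 : (co x').1 ≠ 0 := by
    intro h5
    have h6 := hx'.2.2
    rw [nab_chart h.stair.chart h2] at h6
    have := card_cellsAt_shift (l := 2) (p := co x') hS (by have := hx'.1; omega)
    omega
  have h6 : (co x').1 = (co x').2 := by
    by_contra hcon
    have := chartS_inner_uc h.stair.chart H h2 (by omega) (by omega)
    have := hx'.2.1
    omega
  have h7 := hx'.1
  refine h.stair.chart.inj x h.mem x' h2 ?_
  rw [h.cell]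
  exact Prod.ext (by simp only; omega) (by simp only; omega)

/-- natural elements below a fold end -/
lemma WE.nat_child (W : WE r i m K N b θ) {f : P} {Nc : Finset P} {co : P → ℕ × ℕ}
    (T : Fi.FI i m N b θ f Nc co) {y : P} (hy : y ∉ unnat N) (hyf : y ⋖ f) :
    ∃ x' ∈ Nc, co x' = (m - 1, m + 1) ∧ y ⋖ x' := by
  have H := W.gt.H
  have HN := W.natSys
  have him := W.him
  have h4 := W.hi
  have h1 : y ∈ N (topOf y) := HN.mem_iff.mpr ⟨hy, rfl⟩
  rw [HN.cp y f hyf.1.le hy, T.nat, mem_natS] at h1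
  have hyN : y ∈ Nc := by
    rcases h1 with h | h
    · exact h
    · exfalso
      obtain ⟨x1, hE, hj⟩ := mem_junk.mp h
      have hj2 := (mem_jset.mp hj).2
      have e3 := hE.lt f T.mem (by rw [T.cell]; show 1 ≤ m; omega)
      rw [T.cell] at e3
      simp only at e3
      rcases hj2 f hyf.1.le with h3 | h3
      · have e1 := (T.stair.chart.le_iff f T.mem x1 hE.mem).mp h3
        rw [T.cell] at e1
        have e2 := e1.2
        simp only at e2
        omega
      · have e1 := (T.stair.chart.le_iff x1 hE.mem f T.mem).mp h3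
        rw [T.cell] at e1
        have e2 := e1.1
        have h0 := hE.fst
        simp only at e2
        omega
  have hS : (co y).1 ≤ (co y).2 := T.stair.chart.mem y hyN
  have hp := (chart_cov T.stair.chart H hyN T.mem).mp hyf
  rw [T.cell] at hp
  have hcy : co y = (m, m + 1) := by
    rcases hp with ⟨p1, p2⟩ | ⟨p1, p2⟩
    · simp only at p1 p2
      omega
    · simp only at p1 p2
      exact Prod.ext (by simp only; omega) (by simp only; omega)
  obtain ⟨x', hx', hcx'⟩ := T.stair.chart.low y hyN (m - 1, m + 1) (by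
    rw [hcy]
    exact ⟨Nat.sub_le _ _, le_rfl⟩) (show m - 1 ≤ m + 1 by omega)
  refine ⟨x', hx', hcx', ?_⟩
  rw [chart_cov T.stair.chart H hyN hx', hcx', hcy]
  exact Or.inl ⟨by simp only; omega, rfl⟩

/-- natural elements and twins below a fold end -/
theorem WE.fold_child (W : WE r i m K N b θ) {z f : P} (hf : Fd m f) (hzf : z ⋖ f)
    (hz : z ∉ r2 (2 * m) N) : ∃ Nc co x', Fi.FI i m N b θ f Nc co ∧ x' ∈ Nc ∧
      co x' = (m - 1, m + 1) ∧ z ⋖ x' := by
  obtain ⟨Nc, co, T⟩ := W.fold_typ hf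
  by_cases hY : z ∈ twY (2 * m) N
  · obtain ⟨x', h2, h3, h4⟩ := W.nat_child T (W.twSys.nat z hY) ((W.twSys.cov hY).mpr hzf)
    exact ⟨Nc, co, x', T, h2, h3, (W.twSys.cov hY).mp h4⟩
  · obtain ⟨x', h2, h3, h4⟩ := W.nat_child T (fun h => hz (mem_sdiff.mpr ⟨h, hY⟩)) hzf
    exact ⟨Nc, co, x', T, h2, h3, h4⟩

/-- pendants below a fold end are in `r2` -/
theorem WE.pend_r2 (W : WE r i m K N b θ) {z f : P} (hf : Fd m f) (hp : Pend z f) :
    z ∈ r2 (2 * m) N := by
  have him := W.him
  have h4 := W.hi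
  by_contra hz
  obtain ⟨Nc, co, x', T, h1, h2, h3⟩ := W.fold_child hf hp.1 hz
  have h5 := hp.2 x' h3
  rw [h5, T.cell] at h2
  simp only [Prod.mk.injEq] at h2
  omega

/-- joins below different tops are in `r2` -/
theorem WE.join_r2 (W : WE r i m K N b θ) {z x x' : P} (ht : topOf x ≠ topOf x') (hzx : z ⋖ x)
    (hzx' : z ⋖ x') : z ∈ r2 (2 * m) N := by
  have HN := W.natSys
  refine mem_sdiff.mpr ⟨?_, fun hY => ?_⟩
  · by_contra h
    exact ht ((HN.cp z x hzx.1.le h).symm.trans (HN.cp z x' hzx'.1.le h))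
  · have h := W.twSys.nat z hY
    exact ht ((HN.cp _ x ((W.twSys.cov hY).mpr hzx).1.le h).symm.trans
      (HN.cp _ x' ((W.twSys.cov hY).mpr hzx').1.le h))

/-- joins of a fold end with a single-up end of the same component are in `r2` -/
theorem WE.cc_r2 (W : WE r i m K N b θ) {z f x' : P} (hf : Fd m f) (hu : (Win.uc x').card = 1)
    (hne : f ≠ x') (hzx : z ⋖ f) (hzx' : z ⋖ x') : z ∈ r2 (2 * m) N := by
  have H := W.gt.H
  have him := W.him
  have h4 := W.hi
  by_contra hz
  obtain ⟨Nc, co, y, T, h1, h2, h3⟩ := W.fold_child hf hzx hz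
  have hyf : y ≠ f := by
    rintro rfl
    rw [T.cell] at h2
    simp only [Prod.mk.injEq] at h2
    omega
  have hyx : y = x' := (uc_pair H hzx hzx' hne h3).resolve_left hyf
  subst hyx
  have := chartS_inner_uc T.stair.chart H h1 (by rw [h2]; show 1 ≤ m - 1; omega)
    (by rw [h2]; show m - 1 < m + 1; omega)
  omega

end Pool.Agent.GaussPoset.F6
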