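import Pool.Agent.W_448f6_h94.FxE

/-!
The table of the elements of level `2 m + 1` (MP_448cb3_co, S8, `j = 14`, window 6).
-/

namespace Pool.Agent.GaussPoset.F6

set_option linter.unusedSectionVars false

open Polynomial Finset Fi

universe u

variable {P : Type u} [Fintype P] [PartialOrder P] [DecidableEq P] {r i m K : ℕ}
  {N : Tops P → Finset P} {b : Tops P → ℕ} {θ : Tops P → P → ℕ}

/-- the table -/
inductive RwE (i m K : ℕ) (N : Tops P → Finset P) (θ : Tops P → P → ℕ) (z : P) : Prop
  | penF (x : P) (hx : Fd m x) (hp : Pend z x)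
      (hn : NQ i m N θ z (kF i m) (fun d => 1 + pF m d))
  | ff (x x' : P) (hx : Fd m x) (hx' : Fd m x') (ht : topOf x ≠ topOf x') (hzx : z ⋖ x)
      (hzx' : z ⋖ x') (hn : NQ i m N θ z (kF i m) (fun d => (1 + pF m d) + (1 + pF m d)))
  | fv (x x' : P) (hx : Fd m x) (h1 : (Win.uc x').card = 1)
      (ht : topOf x ≠ topOf x') (hzx : z ⋖ x) (hzx' : z ⋖ x') (p : List ℕ) (hp : p ∈ PL i m)
      (hpr : Prof m x' (gD p))
      (hn : NQ i m N θ z (kF i m) (fun d => (1 + pF m d) + (1 + gD p d)))
  | cc (x x' : P) (hx : Fd m x) (h1 : (Win.uc x').card = 1) (ht : topOf x' = topOf x)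
      (hne : x ≠ x') (hzx : z ⋖ x) (hzx' : z ⋖ x')
  | big (h : K ≤ cst i (h2 (2 * m) N θ) z)

/-- joins of the end of E7 and an end with a large threshold -/
lemma WE.big_ot (W : WE r i m K N b θ) (hm5 : i + 5 ≤ 2 * m)
    (n3 : K ≤ vsQ i m 5 (fun d => (1 + gD pE d) + 1) + 5) {z x x' : P}
    (hz : z ∈ r2 (2 * m) N) (hl : lev z = 2 * m + 1) (hzx : z ⋖ x) (hzx' : z ⋖ x')
    (hne : x ≠ x') (ht : topOf x ≠ topOf x') (hx : Ot i m K N θ x)
    (hx' : 4 ≤ θ (topOf x') x') : K ≤ cst i (h2 (2 * m) N θ) z := by
  have H := W.gt.H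
  have hlx := (H.covBy_iff.mp hzx).2
  have hlx' := (H.covBy_iff.mp hzx').2
  obtain ⟨hpr, hth, -⟩ := hx.prof x (le_topOf x) (by omega)
  have hlab : h2 (2 * m) N θ z = 5 := by
    rw [W.h2_eqI hz hl hzx (fun y hy => ?_), hth]
    rcases uc_pair H hzx hzx' hne hy with e | e
    · rw [e]
    · rw [e, hth]; exact hx'
  have hn : NQ i m N θ z 5 (fun d => (1 + gD pE d) + nab (2 * m - d) x') := by
    refine NQ.mk' hl (by omega) hlab fun d hd => ?_
    rw [W.nab_joinI hl hzx hzx' ht (by omega), hpr d (by omega)]
  rw [hn.cst]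
  refine n3.trans (Nat.add_le_add_right (vsQ_mono fun d => ?_) 5)
  exact Nat.add_le_add_left (one_le_nab (by omega)) _

/-- the table of the elements of level `2 m + 1` -/
theorem WE.rows (W : WE r i m K N b θ) (hkF : i + kF i m ≤ 2 * m) (hk4 : kF i m ≤ 5)
    (hm5 : i + 5 ≤ 2 * m) (n1 : K ≤ (2 * m + 1 - i) ^ 2)
    (n2 : K ≤ vsQ i m (kF i m) (fun d => (1 + pF m d) + (1 + gD pE d)) + kF i m)
    (n3 : K ≤ vsQ i m 5 (fun d => (1 + gD pE d) + 1) + 5)
    {z : P} (hz : z ∈ r2 (2 * m) N) (hl : lev z = 2 * m + 1) : RwE i m K N θ z := by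
  classical
  have H := W.gt.H
  have h4 := W.hi
  have him := W.him
  have hmi := W.hmi
  have hzU : z ∈ unnat N := (mem_sdiff.mp hz).1
  have hlev : ∀ y, z ⋖ y → lev y = 2 * m := by
    intro y hy
    have := (H.covBy_iff.mp hy).2
    omega
  have hFle : (m - 2 * (i / 2)) + (m - i) ≤ 2 * m - i := by omega
  have hzt : z < (topOf z : P) := lt_of_le_of_ne (le_topOf z) (by
    intro h
    have := (topOf z).2
    rw [← h] at this
    omega)
  obtain ⟨x, hzx, hxt⟩ := Hul.exists_cov hzt
  have hlx := hlev x hzx
  have full : (∀ y, z ⋖ y → Fi.Full i m N θ y) → RwE i m K N θ z := by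
    intro h
    refine RwE.big (n1.trans ?_)
    have h3 := W.h2_eqI hz hl hzx (fun y hy => by
      rw [(h x hzx).th, (h y hy).th, hlev x hzx, hlev y hy])
    rw [(h x hzx).th, hlev x hzx] at h3
    have h5 := sq_le_cst (i := i) (h := h2 (2 * m) N θ) (z := z) (by omega)
      (by rw [h3]; omega) (by
        intro k hk hk2
        exact (h x hzx).two z hzU hzx.le k (by omega) (by rw [hlev x hzx]; omega))
    rwa [hl] at h5
  have ot : ∀ x, Ot i m K N θ x → z ⋖ x → ¬ Pend z x := by
    intro x h hzx hp
    refine mem_unnat.mp hzU (topOf x) (h.pend z x hl (le_topOf x) (hlev x hzx) hp)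
  by_cases honly : ∀ y, z ⋖ y → y = x
  · rcases W.kind hlx with h | h | h | h
    · refine full fun y hy => ?_
      rw [honly y hy]
      exact h
    · refine RwE.penF x h ⟨hzx, honly⟩ (NQ.mk' hl hkF ?_ fun d hd => ?_)
      · rw [W.h2_eqI hz hl hzx (fun y hy => by rw [honly y hy]), W.fold_th h]
        rfl
      · rw [nab_pend ⟨hzx, honly⟩ (by omega)]
        exact W.fold_prof h d (by omega)
    · exact absurd ⟨hzx, honly⟩ (ot x h hzx)
    · exact absurd honly (h.2 x z (le_topOf x) hlx h.1 hzx)
  · push Not at honly
    obtain ⟨x', hzx', hne'⟩ := honly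
    have hne : x ≠ x' := Ne.symm hne'
    have hlx' := hlev x' hzx'
    obtain ⟨j, hj⟩ : ∃ j, 2 * m = j + 1 := ⟨2 * m - 1, by omega⟩
    have hgt := W.gt
    rw [hj] at hgt
    rcases (Win.near_level' hgt (by omega)).1 z x x' (by omega) hzx hzx' hne with
      h7 | ⟨h7, h8, -⟩
    · exact (W.near hz hl hzx hzx' hne h7).elim
    · by_cases ht : topOf x = topOf x'
      · have hQ : ∀ y, z ⋖ y → ¬ Ot i m K N θ y := by
          intro y hy hQ
          rcases uc_pair H hzx hzx' hne hy with h | h
          · subst h
            exact hne (hQ.single y x' (le_topOf y) (by rw [ht]; exact le_topOf x') hlx hlx')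
          · subst h
            exact hne (hQ.single x y (by rw [← ht]; exact le_topOf x) (le_topOf y) hlx hlx')
        rcases W.kind hlx with h | h | h | h
        · rcases W.kind hlx' with h' | h' | h' | h'
          · refine full fun y hy => ?_
            rcases uc_pair H hzx hzx' hne hy with e | e
            · rw [e]; exact h
            · rw [e]; exact h'
          · exact RwE.cc x' x h' h7 ht hne' hzx' hzx
          · exact (hQ x' hzx' h').elim
          · omega
        · exact RwE.cc x x' h h8 ht.symm hne hzx hzx'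
        · exact (hQ x hzx h).elim
        · omega
      · -- a fold end and another end
        have fold : ∀ x x' : P, z ⋖ x → z ⋖ x' → x ≠ x' → topOf x ≠ topOf x' → Fd m x →
            (Win.uc x').card = 1 → lev x' = 2 * m → RwE i m K N θ z := by
          intro x x' hzx hzx' hne ht hx h8 hlx'
          rcases W.kind hlx' with h | h | h | h
          · obtain ⟨p, hp, hpr⟩ := W.full_prof hlx' h (by omega) h8
            refine RwE.fv x x' hx h8 ht hzx hzx' p hp hpr (NQ.mk' hl hkF ?_ fun d hd => ?_)
            · rw [W.h2_eqI hz hl hzx (fun y hy => ?_), W.fold_th hx]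
              · rfl
              · rcases uc_pair H hzx hzx' hne hy with e | e
                · rw [e]
                · rw [e, W.fold_th hx, h.th, hlx']
                  exact hFle
            · rw [W.nab_joinI hl hzx hzx' ht (by omega), W.fold_prof hx d (by omega),
                hpr d (by omega)]
          · refine RwE.ff x x' hx h ht hzx hzx' (NQ.mk' hl hkF ?_ fun d hd => ?_)
            · rw [W.h2_eqI hz hl hzx (fun y hy => ?_), W.fold_th hx]
              · rfl
              · rcases uc_pair H hzx hzx' hne hy with e | e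
                · rw [e]
                · rw [e, W.fold_th hx, W.fold_th h]
            · rw [W.nab_joinI hl hzx hzx' ht (by omega), W.fold_prof hx d (by omega),
                W.fold_prof h d (by omega)]
          · obtain ⟨hpr, hth, -⟩ := h.prof x' (le_topOf x') hlx'
            have hn : NQ i m N θ z (kF i m) (fun d => (1 + pF m d) + (1 + gD pE d)) := by
              refine NQ.mk' hl hkF ?_ fun d hd => ?_
              · rw [W.h2_eqI hz hl hzx (fun y hy => ?_), W.fold_th hx]
                · rfl
                · rcases uc_pair H hzx hzx' hne hy with e | e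
                  · rw [e]
                  · rw [e, W.fold_th hx, hth]
                    unfold kF at hk4
                    omega
              · rw [W.nab_joinI hl hzx hzx' ht (by omega), W.fold_prof hx d (by omega),
                  hpr d (by omega)]
            refine RwE.big ?_
            rw [hn.cst]
            exact n2
          · omega
        rcases W.kind hlx with h | h | h | h
        · rcases W.kind hlx' with h' | h' | h' | h'
          · refine full fun y hy => ?_
            rcases uc_pair H hzx hzx' hne hy with e | e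
            · rw [e]; exact h
            · rw [e]; exact h'
          · exact fold x' x hzx' hzx hne' (Ne.symm ht) h' h7 hlx
          · exact RwE.big (W.big_ot hm5 n3 hz hl hzx' hzx hne' (Ne.symm ht) h' (by
              rw [h.th, hlx]; omega))
          · omega
        · exact fold x x' hzx hzx' hne ht h h8 hlx'
        · rcases W.kind hlx' with h' | h' | h' | h'
          · exact RwE.big (W.big_ot hm5 n3 hz hl hzx hzx' hne ht h (by
              rw [h'.th, hlx']; omega))
          · exact fold x' x hzx' hzx hne' (Ne.symm ht) h' h7 hlx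
          · exact RwE.big (W.big_ot hm5 n3 hz hl hzx hzx' hne ht h (by
              rw [(h'.prof x' (le_topOf x') hlx').2.1]))
          · omega
        · omega

end Pool.Agent.GaussPoset.F6
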