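import Pool.Agent.W_448s14_h94.SgF

/-!
The strip `E7` at level 14, with one element of level 15 and two elements of level 16 below it.
-/

namespace Pool.Agent.GaussPoset.F6

open Cl Dd Sg

/-- the up-sets -/
def Eaus : List ℕ := [268435455, 201326591, 134217727, 67108863, 33554431, 16777215, 8388607, 6291455, 5767167, 4194303, 2097151, 1572863, 1048575, 786431, 720895, 704511, 524287, 393215, 262143, 196607, 180223, 131071, 98303, 94207, 65535, 49151, 32767, 28671, 24575, 20479, 19455, 19199, 19135, 16383, 12287, 8191, 6143, 4095, 3071, 2815, 2751, 2047, 1023, 767, 703, 511, 255, 191, 127, 95, 63, 47, 31, 15, 7, 3, 1, 0]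

/-- the covers -/
def Eacv : List ℕ := [0, 1, 2, 4, 8, 8, 16, 48, 192, 128, 768, 512, 1024, 3072, 2048, 12288, 24576, 32768, 98304, 131072, 393216, 1572864, 1048576, 6291456, 8388608, 16777216, 33554432, 33554432]

/-- the levels -/
def Ealv : List ℕ := [0, 1, 2, 3, 4, 4, 5, 5, 6, 6, 7, 7, 8, 8, 8, 9, 9, 10, 10, 11, 11, 12, 12, 13, 14, 15, 16, 16]

/-- the cells above -/
def Eaum : List ℕ := [1, 3, 7, 15, 31, 47, 95, 191, 511, 703, 2047, 2751, 6143, 12287, 19135, 49151, 94207, 180223, 393215, 704511, 1572863, 4194303, 5767167, 16777215, 33554431, 67108863, 134217727, 201326591]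

/-- the thresholds -/
def Eath : List ℕ := [0, 0, 0, 0, 0, 0, 0, 0, 0, 0, 0, 0, 0, 0, 0, 0, 0, 1, 0, 2, 1, 2, 2, 3, 4, 5, 6, 6]

/-- the up-sets above the base: code, `ℓ`, `M`, exponent, coefficient -/
def EaL : List (ℕ × ℕ × ℕ × ℕ × ℕ) := [(268435455, 17, 11, 204, 0), (201326591, 17, 10, 187, 0), (134217727, 17, 10, 187, 0), (67108863, 16, 10, 187, 0), (33554431, 15, 10, 187, 0), (16777215, 14, 10, 187, 0), (8388607, 13, 10, 187, 0), (6291455, 13, 9, 171, 0), (5767167, 13, 8, 156, 0), (4194303, 13, 9, 171, 0), (2097151, 12, 9, 171, 0), (1572863, 12, 8, 156, 0), (1048575, 12, 8, 156, 0), (524287, 11, 8, 156, 0), (393215, 11, 7, 142, 0)]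

theorem Ea_us : UsOK 28 (fun a => Eacv.getD a 0) Eaus :=
  usOK_of_chk (by decide +kernel)

theorem Ea_pol1 : polF1 28 (2 ^ 80) 11 Eaus 6 EaL = true := by
  decide +kernel

theorem Ea_pol2 : polF2 28 (2 ^ 80) 11 Eaus EaL = true := by
  decide +kernel

theorem Ea_pol : polC 28 (2 ^ 80) 11 Eaus 6 EaL = true :=
  polC_of_fast Ea_pol1 Ea_pol2

theorem Ea_low : lowC 28 11 6 75 (fun a => Ealv.getD a 0) Eaus
    393215 EaL = true := by
  decide +kernel

theorem Ea_th : thChk 28 6 18 (fun a => Ealv.getD a 0)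
    (fun a => Eacv.getD a 0) (fun a => Eaum.getD a 0) (fun a => Eath.getD a 0) =
    true := by decide +kernel

theorem Ea_bm : bmC 28 6 18 393215 (fun a => Ealv.getD a 0)
    (fun a => Eaum.getD a 0) = true := by decide +kernel

end Pool.Agent.GaussPoset.F6
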