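import Pool.Agent.W_448f6_h94.FxB
import Pool.Agent.W_448f6_h94.FxH
import Pool.Agent.W_448f6_h94.FxI
import Pool.Agent.W_448f6_h94.FxJ
import Pool.Agent.W_448f6_h94.FxK
import Pool.Agent.W_448f6_h94.FxL
import Pool.Agent.W_448cc7_h94.CsF

/-!
The natural set of the component `E7` at level 14, window 6: the levels `≤ 14`, the pendants
below the last cell and the elements below them (MP_448cb3_co, S8, `j = 14`).
-/

namespace Pool.Agent.GaussPoset.F6

set_option linter.unusedSectionVars false

open Polynomial Finset Cl Wd Cp Sg Cs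

universe u

variable {P : Type u} [Fintype P] [PartialOrder P] [DecidableEq P] {r : ℕ} {v : P}

open Classical in
/-- the pendants below `v` -/
noncomputable def A15 (v : P) : Finset P := univ.filter (fun z => Pend z v)

open Classical in
/-- the elements whose covers are pendants below `v` -/
noncomputable def A16 (v : P) : Finset P :=
  univ.filter (fun w => (∃ y, w ⋖ y) ∧ ∀ y, w ⋖ y → Pend y v)

lemma mem_A15 {z : P} : z ∈ A15 v ↔ Pend z v := by
  unfold A15
  simp

lemma mem_A16 {w : P} : w ∈ A16 v ↔ (∃ y, w ⋖ y) ∧ ∀ y, w ⋖ y → Pend y v := by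
  unfold A16
  simp

/-- the natural set -/
noncomputable def nE (t : Tops P) (v : P) : Finset P := lowPart 14 (t : P) ∪ A15 v ∪ A16 v

lemma mem_nE {t : Tops P} {x : P} :
    x ∈ nE t v ↔ x ∈ lowPart 14 (t : P) ∨ Pend x v ∨ x ∈ A16 v := by
  unfold nE
  rw [mem_union, mem_union, mem_A15, or_assoc]

lemma getD_inj {α : Type*} {l : List α} (h : l.Nodup) {a b : ℕ} (ha : a < l.length)
    (hb : b < l.length) {d : α} (hab : l.getD a d = l.getD b d) : a = b := by
  rw [List.getD_eq_getElem _ _ ha, List.getD_eq_getElem _ _ hb] at hab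
  exact (h.getElem_inj_iff).mp hab

lemma getD_mem {α : Type*} {l : List α} {a : ℕ} (ha : a < l.length) {d : α} :
    l.getD a d ∈ l := by
  rw [List.getD_eq_getElem _ _ ha]
  exact List.getElem_mem _

lemma mem_getD {α : Type*} {l : List α} {x d : α} (h : x ∈ l) :
    ∃ a < l.length, l.getD a d = x := by
  obtain ⟨a, ha, h⟩ := List.mem_iff_getElem.mp h
  exact ⟨a, ha, by rw [List.getD_eq_getElem _ _ ha]; exact h⟩

/-- the data of the cells of the levels 15 and 16 -/
structure Dat (v : P) (zs : List P) (L : List (P × ℕ)) (ms : List ℕ) : Prop where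
  znd : zs.Nodup
  zmem : ∀ x, x ∈ zs ↔ Pend x v
  lnd : (L.map Prod.fst).Nodup
  lcov : ∀ p ∈ L, ∀ y, p.1 ⋖ y ↔ ∃ j < zs.length, p.2.testBit j = true ∧ zs.getD j v = y
  lall : ∀ x ∈ A16 v, ∃ p ∈ L, p.1 = x
  lmem : ∀ p ∈ L, p.1 ∈ A16 v
  lms : L.map Prod.snd = ms

/-- the code -/
def cE (c : ℕ → P) (v : P) (zs : List P) (L : List (P × ℕ)) (a : ℕ) : P :=
  if a < 25 + zs.length then (if a < 25 then c a else zs.getD (a - 25) v)
  else (L.map Prod.fst).getD (a - (25 + zs.length)) v

section Code

variable {c : ℕ → P} {zs : List P} {L : List (P × ℕ)} {ms : List ℕ} {cv lv : ℕ → ℕ}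

lemma Dat.len (D : Dat v zs L ms) : (L.map Prod.fst).length = ms.length := by
  rw [← D.lms, List.length_map, List.length_map]

/-- the entries -/
lemma Dat.get (D : Dat v zs L ms) {k : ℕ} (hk : k < ms.length) :
    ∃ p ∈ L, (L.map Prod.fst).getD k v = p.1 ∧ ms.getD k 0 = p.2 := by
  have h1 : k < L.length := by
    have := D.lms
    rw [← this, List.length_map] at hk
    exact hk
  refine ⟨L[k], List.getElem_mem _, ?_, ?_⟩
  · rw [List.getD_eq_getElem _ _ (by rw [List.length_map]; exact h1), List.getElem_map]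
  · have := D.lms
    subst this
    rw [List.getD_eq_getElem _ _ (by rw [List.length_map]; exact h1), List.getElem_map]

theorem Dat.cod (D : Dat v zs L ms) (C : Cod 25 (fun a => E7cv.getD a 0) (fun a => E7lv.getD a 0) c)
    (hv : c 24 = v) (hlz : ∀ z, Pend z v → GaussPoset.lev z = 15)
    (hlw : ∀ w ∈ A16 v, GaussPoset.lev w = 16)
    (h1 : ∀ a < 25, cv a = E7cv.getD a 0) (h2 : ∀ a < 25, lv a = E7lv.getD a 0)
    (h3 : ∀ k < zs.length, cv (25 + k) = 2 ^ 24 ∧ lv (25 + k) = 15)
    (h4 : ∀ k < ms.length, cv (25 + zs.length + k) = ms.getD k 0 * 2 ^ 25 ∧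
      lv (25 + zs.length + k) = 16) (h5 : ∀ k < ms.length, ms.getD k 0 < 2 ^ zs.length) :
    Cod (25 + zs.length + ms.length) cv lv (cE c v zs L) := by
  have hl14 : ∀ a < 25, E7lv.getD a 0 ≤ 14 := by decide +kernel
  have C1 := Sg.cod_append (n := 25) (K := zs.length) (cx := fun _ => 2 ^ 24) (lx := fun _ => 15)
    (z := fun k => zs.getD k v) (cv' := cv) (lv' := lv) C (by decide +kernel)
    (fun _ _ => by norm_num) h1 h2 (fun k hk => (h3 k hk).1) (fun k hk => (h3 k hk).2)
    (fun a ha b hb h => getD_inj D.znd ha hb h) (by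
      intro a ha b hb h
      have g1 := C.lev a ha
      have g2 := hlz _ ((D.zmem _).mp (getD_mem (d := v) hb))
      rw [← h, g1] at g2
      have := hl14 a ha
      omega) (by
      intro k hk y
      have g1 := (D.zmem _).mp (getD_mem (d := v) hk)
      constructor
      · intro h
        exact ⟨24, by norm_num, by decide +kernel, hv.trans (g1.2 y h).symm⟩
      · rintro ⟨b, hb, hbit, rfl⟩
        have h : ∀ b < 25, (2 ^ 24 : ℕ).testBit b = true → b = 24 := by decide +kernel
        rw [h b hb hbit, hv]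
        exact g1.1) (fun k hk => hlz _ ((D.zmem _).mp (getD_mem (d := v) hk)))
  have hz' : ∀ j < zs.length, (fun a => if a < 25 then c a else zs.getD (a - 25) v) (25 + j) =
      zs.getD j v := by
    intro j _
    simp only
    rw [if_neg (by omega), Nat.add_sub_cancel_left]
  have hc1 : ∀ a < 25 + zs.length, cv a < 2 ^ (25 + zs.length) := by
    intro a ha
    have hp : (2 : ℕ) ^ 25 ≤ 2 ^ (25 + zs.length) := Nat.pow_le_pow_right (by norm_num) (by omega)
    by_cases h : a < 25
    · rw [h1 a h]
      have : ∀ a < 25, E7cv.getD a 0 < 2 ^ 25 := by decide +kernel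
      exact (this a h).trans_le hp
    · have := (h3 (a - 25) (by omega)).1
      rw [show 25 + (a - 25) = a by omega] at this
      rw [this]
      exact lt_of_lt_of_le (by norm_num) hp
  have hlen := D.len
  exact Sg.cod_append (n := 25 + zs.length) (K := ms.length)
    (cx := fun k => ms.getD k 0 * 2 ^ 25) (lx := fun _ => 16)
    (z := fun k => (L.map Prod.fst).getD k v) (cv' := cv) (lv' := lv) C1 hc1
    (fun k hk => by
      rw [pow_add, mul_comm]
      exact Nat.mul_lt_mul_of_pos_left (h5 k hk) (by norm_num)) (fun _ _ => rfl) (fun _ _ => rfl)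
    (fun k hk => (h4 k hk).1) (fun k hk => (h4 k hk).2)
    (fun a ha b hb h => getD_inj D.lnd (by omega) (by omega) h) (by
      intro a ha b hb h
      obtain ⟨p, hp, hp1, -⟩ := D.get hb
      have g2 := hlw _ (D.lmem p hp)
      rw [← hp1, ← h, C1.lev a ha] at g2
      by_cases ha' : a < 25
      · rw [h2 a ha'] at g2
        have := hl14 a ha'
        omega
      · have := (h3 (a - 25) (by omega)).2
        rw [show 25 + (a - 25) = a by omega] at this
        omega) (by
      intro k hk y
      obtain ⟨p, hp, hp1, hp2⟩ := D.get hk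
      rw [hp1, hp2, D.lcov p hp y]
      constructor
      · rintro ⟨j, hj, hbit, rfl⟩
        refine ⟨25 + j, by omega, ?_, hz' j hj⟩
        rw [← Nat.shiftLeft_eq, Nat.testBit_shiftLeft]
        simp [hbit]
      · rintro ⟨b, hb, hbit, rfl⟩
        rw [← Nat.shiftLeft_eq, Nat.testBit_shiftLeft] at hbit
        simp only [ge_iff_le, Bool.and_eq_true, decide_eq_true_eq] at hbit
        refine ⟨b - 25, by omega, hbit.2, ?_⟩
        have g := hz' (b - 25) (by omega)
        rw [show 25 + (b - 25) = b by omega] at g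
        exact g.symm) (by
      intro k hk
      obtain ⟨p, hp, hp1, -⟩ := D.get hk
      rw [hp1]
      exact hlw _ (D.lmem p hp))

/-- the cells are the elements of the natural set -/
theorem Dat.surj (D : Dat v zs L ms) {t : Tops P} (hst : ∀ x, x ∈ lowPart 14 (t : P) ↔
    ∃ a < 25, c a = x) (x : P) :
    x ∈ nE t v ↔ ∃ a < 25 + zs.length + ms.length, cE c v zs L a = x := by
  have hlen := D.len
  rw [mem_nE]
  constructor
  · rintro (h | h | h)
    · obtain ⟨a, ha, rfl⟩ := (hst x).mp h
      exact ⟨a, by omega, by unfold cE; rw [if_pos (by omega), if_pos ha]⟩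
    · obtain ⟨a, ha, h1⟩ := mem_getD (d := v) ((D.zmem x).mpr h)
      refine ⟨25 + a, by omega, ?_⟩
      unfold cE
      rw [if_pos (by omega), if_neg (by omega), Nat.add_sub_cancel_left]
      exact h1
    · obtain ⟨p, hp, rfl⟩ := D.lall x h
      obtain ⟨a, ha, h1⟩ := mem_getD (d := v) (List.mem_map_of_mem (f := Prod.fst) hp)
      refine ⟨25 + zs.length + a, by omega, ?_⟩
      unfold cE
      rw [if_neg (by omega), Nat.add_sub_cancel_left]
      exact h1
  · rintro ⟨a, ha, rfl⟩
    unfold cE
    by_cases h1 : a < 25 + zs.length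
    · rw [if_pos h1]
      by_cases h2 : a < 25
      · rw [if_pos h2]
        exact Or.inl ((hst _).mpr ⟨a, h2, rfl⟩)
      · rw [if_neg h2]
        exact Or.inr (Or.inl ((D.zmem _).mp (getD_mem (by omega))))
    · rw [if_neg h1]
      obtain ⟨p, hp, hp1, -⟩ := D.get (k := a - (25 + zs.length)) (by omega)
      rw [hp1]
      exact Or.inr (Or.inr (D.lmem p hp))

end Code

end Pool.Agent.GaussPoset.F6
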