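import Pool.Agent.W_448f6_h94.FxN

/-!
The component `E7` at level 14: its local data at window 6 (MP_448cb3_co, S8, `j = 14`).
-/

namespace Pool.Agent.GaussPoset.F6

set_option linter.unusedSectionVars false

open Polynomial Finset Cl Wd Cp Sg Cs

universe u

variable {P : Type u} [Fintype P] [PartialOrder P] [DecidableEq P] {r : ℕ} {v : P}
variable {t : Tops P} {lo hi : ℕ → ℕ} {e : ℕ → ℕ → P}

lemma E7_le (D : WordD 14 4 w7 lo hi) (C : Comp 14 (t : P) lo hi e) {a : ℕ} (ha : a < 25) :
    c7 e a ≤ (t : P) ∧ GaussPoset.lev (c7 e a) = E7lv.getD a 0 := by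
  obtain ⟨h1, h2⟩ := D.rows C
  have h3 := E7_strip.row a (by omega)
  have h4 : E7lv.getD a 0 ≤ 14 := by
    have h : ∀ a < 25, E7lv.getD a 0 ≤ 14 := by decide +kernel
    exact h a ha
  rw [← h1 _ h4, ← h2 _ h4] at h3
  exact ⟨C.le_t _ _ h4 h3.1 h3.2, C.lev_e _ _ h4 h3.1 h3.2⟩

lemma E7_low (D : WordD 14 4 w7 lo hi) (C : Comp 14 (t : P) lo hi e) (x : P) :
    x ∈ lowPart 14 (t : P) ↔ ∃ a < 25, c7 e a = x := by
  obtain ⟨h1, h2⟩ := D.rows C
  constructor
  · intro h
    obtain ⟨a, ha, hxa⟩ := E7_strip.surj' C (by norm_num) h1 h2 h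
    exact ⟨a, ha, hxa⟩
  · rintro ⟨a, ha, rfl⟩
    obtain ⟨h3, h4⟩ := E7_le D C ha
    refine mem_lowPart.mpr ⟨h3, ?_⟩
    rw [h4]
    have h : ∀ a < 25, E7lv.getD a 0 ≤ 14 := by decide +kernel
    exact h a ha

lemma E7_l14 (D : WordD 14 4 w7 lo hi) (C : Comp 14 (t : P) lo hi e) :
    GaussPoset.lev (c7 e 24) = 14 := (E7_le D C (by norm_num)).2

lemma lev15 (H : Gr P r) (hv : GaussPoset.lev v = 14) {z : P} (hz : Pend z v) :
    GaussPoset.lev z = 15 := by
  have := (H.covBy_iff.mp hz.1).2
  omega

lemma lev16 (H : Gr P r) (hv : GaussPoset.lev v = 14) {w : P} (hw : w ∈ A16 v) :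
    GaussPoset.lev w = 16 := by
  obtain ⟨⟨y, hy⟩, h2⟩ := mem_A16.mp hw
  have h3 := lev15 H hv (h2 y hy)
  have := (H.covBy_iff.mp hy).2
  omega

/-- the data from a list of the elements of level 16 -/
theorem dat_of {zs : List P} (hz : zs.Nodup) (hzm : ∀ x, x ∈ zs ↔ Pend x v) (l : List P)
    (hl : l.Nodup) (hlm : ∀ x, x ∈ l ↔ x ∈ A16 v) (mk : P → ℕ)
    (hmk : ∀ w ∈ A16 v, ∀ y, w ⋖ y ↔ ∃ j < zs.length, (mk w).testBit j = true ∧
      zs.getD j v = y) : Dat v zs (l.map fun w => (w, mk w)) (l.map mk) where
  znd := hz
  zmem := hzm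
  lnd := by
    rw [List.map_map]
    have : (Prod.fst ∘ fun w : P => (w, mk w)) = id := rfl
    rw [this, List.map_id]
    exact hl
  lcov := by
    intro p hp y
    obtain ⟨w, hw, rfl⟩ := List.mem_map.mp hp
    exact hmk w ((hlm w).mp hw) y
  lall := by
    intro x hx
    exact ⟨_, List.mem_map_of_mem (f := fun w => (w, mk w)) ((hlm x).mpr hx), rfl⟩
  lmem := by
    intro p hp
    obtain ⟨w, hw, rfl⟩ := List.mem_map.mp hp
    exact (hlm w).mp hw
  lms := by
    rw [List.map_map]
    rfl

lemma card_low (H : Gr P r) {x : P} {S : Finset P} (hS : ∀ w ∈ S, w ⋖ x) : S.card ≤ 2 := by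
  refine le_trans (Finset.card_le_card ?_) (Win.dc_card_le H x)
  intro w hw
  rw [Win.mem_dc]
  exact hS w hw

/-- **The local data of `E7` at level 14.** -/
theorem exists_E7L (h : Win.GoodTo P r 14) (C : Comp 14 (t : P) lo hi e)
    (D : WordD 14 4 w7 lo hi) : ∃ θ, E7L t (c7 e 24) θ := by
  classical
  have H := h.H
  have hC := E7_cod14 D C H h.good
  have hst := E7_low D C
  have hl := E7_l14 D C
  generalize hve : c7 e 24 = v at hl
  have hlz : ∀ z, Pend z v → GaussPoset.lev z = 15 := fun z hz => lev15 H hl hz
  have hlw : ∀ w ∈ A16 v, GaussPoset.lev w = 16 := fun w hw => lev16 H hl hw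
  have hc15 : (A15 v).card ≤ 2 := card_low H fun w hw => (mem_A15.mp hw).1
  obtain hc | hc | hc : (A15 v).card = 0 ∨ (A15 v).card = 1 ∨ (A15 v).card = 2 := by omega
  · rw [Finset.card_eq_zero] at hc
    have hno : ∀ z, ¬ Pend z v := by
      intro z hz
      have := mem_A15.mpr hz
      rw [hc] at this
      exact absurd this (Finset.notMem_empty z)
    have hno' : ∀ w, w ∉ A16 v := by
      intro w hw
      obtain ⟨⟨y, hy⟩, h2⟩ := mem_A16.mp hw
      exact hno y (h2 y hy)
    have Dt := dat_of (v := v) (zs := []) List.nodup_nil (fun x => by simp [hno x]) []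
      List.nodup_nil (fun x => by simp [hno' x]) (fun _ => 0) (fun w hw => absurd hw (hno' w))
    exact case_one hC hve hst hlz hlw Dt (n1 := 0) (n2 := 0) rfl (by norm_num) rfl (by norm_num)
      (fun _ => rfl)
  · obtain ⟨z, hz⟩ := Finset.card_eq_one.mp hc
    have hp : ∀ x, Pend x v ↔ x = z := by
      intro x
      rw [← mem_A15, hz, mem_singleton]
    have hcov : ∀ w ∈ A16 v, ∀ y, w ⋖ y ↔ y = z := by
      intro w hw y
      obtain ⟨⟨y', hy'⟩, h2⟩ := mem_A16.mp hw
      constructor
      · intro h3
        exact (hp y).mp (h2 y h3)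
      · rintro rfl
        rw [← (hp y').mp (h2 y' hy')]
        exact hy'
    have Dt := dat_of (v := v) (zs := [z]) (List.nodup_singleton z)
      (fun x => by rw [List.mem_singleton]; exact (hp x).symm) (A16 v).toList
      (Finset.nodup_toList _) (fun x => Finset.mem_toList) (fun _ => 1) (by
        intro w hw y
        rw [hcov w hw y]
        constructor
        · rintro rfl
          exact ⟨0, by simp, by decide, rfl⟩
        · rintro ⟨j, hj, -, hj2⟩
          have : j = 0 := by simpa using hj
          subst this
          exact hj2.symm)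
    refine case_one hC hve hst hlz hlw Dt (n1 := 1) (n2 := (A16 v).card) rfl le_rfl ?_ ?_
      (fun h => absurd h (by norm_num))
    · rw [← Finset.length_toList, List.eq_replicate_iff]
      refine ⟨by rw [List.length_map], ?_⟩
      intro b hb
      obtain ⟨w, -, rfl⟩ := List.mem_map.mp hb
      rfl
    · exact card_low H (x := z) fun w hw => (hcov w hw z).mpr rfl
  · obtain ⟨y0, y1, hne, hz⟩ := Finset.card_eq_two.mp hc
    -- the general statement
    have key : ∀ z0 z1 : P, z0 ≠ z1 → A15 v = {z0, z1} →
        ((A16 v).filter (fun w => ¬ w ⋖ z0 ∧ w ⋖ z1)).card ≤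
          ((A16 v).filter (fun w => w ⋖ z0 ∧ ¬ w ⋖ z1)).card → ∃ θ, E7L t v θ := by
      intro z0 z1 hne hz hcard
      have hp : ∀ x, Pend x v ↔ x = z0 ∨ x = z1 := by
        intro x
        rw [← mem_A15, hz, mem_insert, mem_singleton]
      set W3 := (A16 v).filter (fun w => w ⋖ z0 ∧ w ⋖ z1) with hW3
      set W1 := (A16 v).filter (fun w => w ⋖ z0 ∧ ¬ w ⋖ z1) with hW1
      set W2 := (A16 v).filter (fun w => ¬ w ⋖ z0 ∧ w ⋖ z1) with hW2
      have hcov : ∀ w ∈ A16 v, (∀ y, w ⋖ y → y = z0 ∨ y = z1) ∧ (w ⋖ z0 ∨ w ⋖ z1) := by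
        intro w hw
        obtain ⟨⟨y, hy⟩, h2⟩ := mem_A16.mp hw
        refine ⟨fun y hy => (hp y).mp (h2 y hy), ?_⟩
        rcases (hp y).mp (h2 y hy) with rfl | rfl
        · exact Or.inl hy
        · exact Or.inr hy
      have hnd : (W3.toList ++ (W1.toList ++ W2.toList)).Nodup := by
        rw [List.nodup_append]
        refine ⟨W3.nodup_toList, ?_, ?_⟩
        · rw [List.nodup_append]
          refine ⟨W1.nodup_toList, W2.nodup_toList, ?_⟩
          intro a ha b hb hab
          rw [Finset.mem_toList, mem_filter] at ha hb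
          subst hab
          exact hb.2.1 ha.2.1
        · intro a ha b hb hab
          rw [Finset.mem_toList, mem_filter] at ha
          subst hab
          rw [List.mem_append, Finset.mem_toList, Finset.mem_toList, mem_filter,
            mem_filter] at hb
          rcases hb with hb | hb
          · exact hb.2.2 ha.2.2
          · exact hb.2.1 ha.2.1
      have hmem : ∀ x, x ∈ W3.toList ++ (W1.toList ++ W2.toList) ↔ x ∈ A16 v := by
        intro x
        rw [List.mem_append, List.mem_append, Finset.mem_toList, Finset.mem_toList,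
          Finset.mem_toList, mem_filter, mem_filter, mem_filter]
        constructor
        · rintro (h | h | h)
          · exact h.1
          · exact h.1
          · exact h.1
        · intro hx
          have := (hcov x hx).2
          by_cases h0 : x ⋖ z0 <;> by_cases h1 : x ⋖ z1
          · exact Or.inl ⟨hx, h0, h1⟩
          · exact Or.inr (Or.inl ⟨hx, h0, h1⟩)
          · exact Or.inr (Or.inr ⟨hx, h0, h1⟩)
          · exact absurd this (by tauto)
      have Dt := dat_of (v := v) (zs := [z0, z1]) (by simp [hne])
        (fun x => by rw [hp x]; simp) (W3.toList ++ (W1.toList ++ W2.toList)) hnd hmem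
        (fun w => if w ⋖ z0 then (if w ⋖ z1 then 3 else 1) else 2) (by
          intro w hw y
          obtain ⟨g1, g2⟩ := hcov w hw
          have e2 : [z0, z1].length = 2 := rfl
          rw [e2]
          have q0 : ([z0, z1] : List P).getD 0 v = z0 := rfl
          have q1 : ([z0, z1] : List P).getD 1 v = z1 := rfl
          by_cases h0 : w ⋖ z0
          · by_cases h1 : w ⋖ z1
            · simp only [if_pos h0, if_pos h1]
              constructor
              · intro hy
                rcases g1 y hy with rfl | rfl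
                · exact ⟨0, by norm_num, by decide, q0⟩
                · exact ⟨1, by norm_num, by decide, q1⟩
              · rintro ⟨j, hj, -, hj2⟩
                obtain rfl | rfl : j = 0 ∨ j = 1 := by omega
                · rw [← hj2, q0]; exact h0
                · rw [← hj2, q1]; exact h1
            · simp only [if_pos h0, if_neg h1]
              constructor
              · intro hy
                rcases g1 y hy with rfl | rfl
                · exact ⟨0, by norm_num, by decide, q0⟩
                · exact absurd hy h1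
              · rintro ⟨j, hj, hbit, hj2⟩
                obtain rfl | rfl : j = 0 ∨ j = 1 := by omega
                · rw [← hj2, q0]; exact h0
                · exact absurd hbit (by decide)
          · have h1 : w ⋖ z1 := by tauto
            simp only [if_neg h0]
            constructor
            · intro hy
              rcases g1 y hy with rfl | rfl
              · exact absurd hy h0
              · exact ⟨1, by norm_num, by decide, q1⟩
            · rintro ⟨j, hj, hbit, hj2⟩
              obtain rfl | rfl : j = 0 ∨ j = 1 := by omega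
              · exact absurd hbit (by decide)
              · rw [← hj2, q1]; exact h1)
      have hms : (W3.toList ++ (W1.toList ++ W2.toList)).map
          (fun w => if w ⋖ z0 then (if w ⋖ z1 then 3 else 1) else 2) =
          List.replicate W3.card 3 ++ (List.replicate W1.card 1 ++ List.replicate W2.card 2) := by
        rw [List.map_append, List.map_append]
        refine congrArg₂ _ ?_ (congrArg₂ _ ?_ ?_)
        · rw [← Finset.length_toList, List.eq_replicate_iff]
          refine ⟨by rw [List.length_map], fun b hb => ?_⟩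
          obtain ⟨w, hw, rfl⟩ := List.mem_map.mp hb
          rw [Finset.mem_toList, mem_filter] at hw
          rw [if_pos hw.2.1, if_pos hw.2.2]
        · rw [← Finset.length_toList, List.eq_replicate_iff]
          refine ⟨by rw [List.length_map], fun b hb => ?_⟩
          obtain ⟨w, hw, rfl⟩ := List.mem_map.mp hb
          rw [Finset.mem_toList, mem_filter] at hw
          rw [if_pos hw.2.1, if_neg hw.2.2]
        · rw [← Finset.length_toList, List.eq_replicate_iff]
          refine ⟨by rw [List.length_map], fun b hb => ?_⟩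
          obtain ⟨w, hw, rfl⟩ := List.mem_map.mp hb
          rw [Finset.mem_toList, mem_filter] at hw
          rw [if_neg hw.2.1]
      have hc31 : W1.card + W3.card ≤ 2 := by
        rw [← Finset.card_union_of_disjoint]
        · refine card_low H (x := z0) fun w hw => ?_
          rw [mem_union, mem_filter, mem_filter] at hw
          rcases hw with hw | hw
          · exact hw.2.1
          · exact hw.2.1
        · rw [Finset.disjoint_left]
          intro w hw hw'
          rw [mem_filter] at hw hw'
          exact hw.2.2 hw'.2.2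
      rcases Nat.eq_zero_or_pos W3.card with h3 | h3
      · refine case_two hC hve hst hlz hlw Dt (a := W1.card) (b := W2.card) rfl (by omega) hcard ?_
        rw [hms, h3]
        rfl
      · exact case_com hC hve hst hlz hlw Dt (a := W1.card) (b := W2.card) (d := W3.card) rfl h3
          hc31 hcard hms
    rcases le_total ((A16 v).filter (fun w => ¬ w ⋖ y0 ∧ w ⋖ y1)).card
      ((A16 v).filter (fun w => w ⋖ y0 ∧ ¬ w ⋖ y1)).card with h4 | h4
    · exact key y0 y1 hne hz h4
    · refine key y1 y0 hne.symm (by rw [hz, Finset.pair_comm]) ?_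
      have e1 : (A16 v).filter (fun w => ¬ w ⋖ y1 ∧ w ⋖ y0) =
          (A16 v).filter (fun w => w ⋖ y0 ∧ ¬ w ⋖ y1) :=
        Finset.filter_congr fun w _ => and_comm
      have e2 : (A16 v).filter (fun w => w ⋖ y1 ∧ ¬ w ⋖ y0) =
          (A16 v).filter (fun w => ¬ w ⋖ y0 ∧ w ⋖ y1) :=
        Finset.filter_congr fun w _ => and_comm
      rw [e1, e2]
      exact h4

end Pool.Agent.GaussPoset.F6
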