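import Pool.Agent.W_448f6_h94.FxO

/-!
The type of the component `E7` at window 6, level 14 (MP_448cb3_co, S8, `j = 14`).
-/

namespace Pool.Agent.GaussPoset.F6

set_option linter.unusedSectionVars false

open Polynomial Finset Cl Wd Cp Sg Cs

universe u

variable {P : Type u} [Fintype P] [PartialOrder P] [DecidableEq P] {r : ℕ} {v : P}
variable {t : Tops P} {lo hi : ℕ → ℕ} {e : ℕ → ℕ → P}

lemma ct_three {i k : ℕ} {z x y0 y1 : P} (hzx : z < x) (h0 : z < y0) (h1 : z < y1)
    (hx0 : ¬ x ≤ y0) (hx1 : ¬ x ≤ y1) (hne : y0 ≠ y1) :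
    ct i k x + (min k (GaussPoset.lev z - i) + (min k (GaussPoset.lev y0 - i) +
      min k (GaussPoset.lev y1 - i))) ≤ ct i k z := by
  classical
  have e1 : ∀ a : P, (∑ y, if y = a then min k (GaussPoset.lev y - i) else 0) =
      min k (GaussPoset.lev a - i) := by
    intro a
    rw [Finset.sum_ite_eq' univ a (fun y => min k (GaussPoset.lev y - i)), if_pos (mem_univ a)]
  rw [← e1 z, ← e1 y0, ← e1 y1, ct_eq_sum, ct_eq_sum, ← Finset.sum_add_distrib,
    ← Finset.sum_add_distrib, ← Finset.sum_add_distrib]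
  refine Finset.sum_le_sum fun y _ => ?_
  by_cases a1 : x ≤ y
  · have a2 : y ≠ z := by rintro rfl; exact absurd a1 (not_le_of_gt hzx)
    have a3 : y ≠ y0 := by rintro rfl; exact hx0 a1
    have a4 : y ≠ y1 := by rintro rfl; exact hx1 a1
    rw [if_pos a1, if_neg a2, if_neg a3, if_neg a4, if_pos (hzx.le.trans a1)]
    omega
  · rw [if_neg a1]
    by_cases a2 : y = z
    · subst a2
      rw [if_pos rfl, if_neg h0.ne, if_neg h1.ne, if_pos le_rfl]
      omega
    · rw [if_neg a2]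
      by_cases a3 : y = y0
      · subst a3
        rw [if_pos rfl, if_neg hne, if_pos h0.le]
        omega
      · rw [if_neg a3]
        by_cases a4 : y = y1
        · subst a4
          rw [if_pos rfl, if_pos h1.le]
          omega
        · rw [if_neg a4]
          simp

lemma E7_umOK : ∀ a < 25, Cs.E7um.getD a 0 = Nat.lor (2 ^ a)
    (orM (fun a => Cs.E7um.getD a 0) 25 (E7cv.getD a 0)) := by decide +kernel

lemma E7_cvOK : ∀ a < 25, E7cv.getD a 0 < 2 ^ a := by decide +kernel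

/-- the costs of a pendant -/
lemma E7_pct (hC : Cod 25 (fun a => E7cv.getD a 0) (fun a => E7lv.getD a 0) (c7 e))
    {z : P} (hl : GaussPoset.lev z = 15) (hz : Pend z (c7 e 24)) :
    ct 6 6 z = 62 ∧ ct 6 7 z = 65 := by
  have h1 := Sg.cod_ct (um := fun a => Cs.E7um.getD a 0) hC E7_cvOK E7_umOK
    (z := z) (m := 16777216) (fun w => by
      constructor
      · intro h
        exact ⟨24, by norm_num, by decide +kernel, (hz.2 w h).symm⟩
      · rintro ⟨b, hb, hbit, rfl⟩
        have h : ∀ b < 25, (16777216 : ℕ).testBit b = true → b = 24 := by decide +kernel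
        rw [h b hb hbit]
        exact hz.1) 6
  rw [h1, h1, hl]
  decide +kernel

lemma E7_lvle : ∀ a < 25, E7lv.getD a 0 ≤ 14 := by decide +kernel

/-- the cells above the last one -/
lemma E7_nab (hC : Cod 25 (fun a => E7cv.getD a 0) (fun a => E7lv.getD a 0) (c7 e)) (l : ℕ) :
    nab l (c7 e 24) = ((range 25).filter (fun a => E7lv.getD a 0 = l)).card := by
  classical
  unfold nab
  symm
  refine Finset.card_bij (fun a _ => c7 e a) ?_ ?_ ?_
  · intro a ha
    rw [mem_filter, mem_range] at ha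
    rw [mem_filter, mem_lv]
    refine ⟨(hC.lev a ha.1).trans ha.2, ?_⟩
    rw [hC.le_iff le_rfl E7_cvOK E7_umOK (by norm_num) ha.1]
    have h : ∀ a < 25, (Cs.E7um.getD 24 0).testBit a = true := by decide +kernel
    exact h a ha.1
  · intro a ha b hb h
    rw [mem_filter, mem_range] at ha hb
    exact hC.inj a ha.1 b hb.1 h
  · intro y hy
    rw [mem_filter, mem_lv] at hy
    obtain ⟨a, ha, rfl⟩ := cod_above hC (by norm_num) hy.2
    exact ⟨a, mem_filter.mpr ⟨mem_range.mpr ha, (hC.lev a ha).symm.trans hy.1⟩, rfl⟩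

lemma E7_prof (hC : Cod 25 (fun a => E7cv.getD a 0) (fun a => E7lv.getD a 0) (c7 e)) :
    Fi.Prof 7 (c7 e 24) (Fi.gD pE) := by
  intro d hd
  rw [E7_nab hC]
  have h : ∀ d, d ≤ 14 → ((range 25).filter (fun a => E7lv.getD a 0 = 14 - d)).card =
      1 + pE.getD d 0 := by decide +kernel
  exact h d hd

lemma E7_uc (hC : Cod 25 (fun a => E7cv.getD a 0) (fun a => E7lv.getD a 0) (c7 e)) :
    (Win.uc (c7 e 24)).card = 1 := by
  classical
  rw [Finset.card_eq_one]
  have h : ∀ b < 25, (E7cv.getD 24 0).testBit b = true → b = 23 := by decide +kernel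
  refine ⟨c7 e 23, ?_⟩
  ext y
  rw [Win.mem_uc, hC.cov 24 (by norm_num) y, mem_singleton]
  constructor
  · rintro ⟨b, hb, hbit, rfl⟩
    rw [h b hb hbit]
  · rintro rfl
    exact ⟨23, by norm_num, by decide +kernel, rfl⟩

lemma exists_cov' {y : P} (hl : 1 ≤ GaussPoset.lev y) : ∃ w, y ⋖ w := by
  have h1 : y < (topOf y : P) := by
    refine lt_of_le_of_ne (le_topOf y) ?_
    intro h
    have := (topOf y).2
    rw [← h] at this
    omega
  obtain ⟨w, hw, -⟩ := Hul.exists_cov h1
  exact ⟨w, hw⟩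

/-- the costs at the end of the natural set -/
lemma kap_E7 (H : Gr P r) (hv : GaussPoset.lev v = 14)
    (hpc : ∀ x, Pend x v → ct 6 6 x = 62 ∧ ct 6 7 x = 65) {θ : P → ℕ} (E : E7L t v θ) {z x : P}
    (hz : z ∉ nE t v) (hx : x ∈ nE t v) (hl : 15 ≤ GaussPoset.lev x) (hzx : z ⋖ x) :
    77 ≤ ct 6 (θ x + 1) z := by
  have hzl := (H.covBy_iff.mp hzx).2
  rw [mem_nE] at hx hz
  push Not at hz
  rcases hx with hx | hx | hx
  · exact absurd (mem_lowPart.mp hx).2 (by omega)
  · rw [E.th15 x hx]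
    have hxl := lev15 H hv hx
    have h1 : ∃ y, z ⋖ y ∧ ¬ Pend y v := by
      by_contra hcon
      push Not at hcon
      exact hz.2.2 (mem_A16.mpr ⟨⟨x, hzx⟩, hcon⟩)
    obtain ⟨y, hy, hyp⟩ := h1
    have hyl := (H.covBy_iff.mp hy).2
    have h2 : ∃ y', y ⋖ y' ∧ y' ≠ v := by
      by_contra hcon
      push Not at hcon
      obtain ⟨y', hy'⟩ := exists_cov' (y := y) (by omega)
      exact hyp ⟨by rw [← hcon y' hy']; exact hy', hcon⟩
    obtain ⟨y', hy', hne⟩ := h2
    have hyl' := (H.covBy_iff.mp hy').2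
    have h3 := ct_three (i := 6) (k := 6) hzx.lt hy.lt (hy.lt.trans hy'.lt) (by
      intro h
      have h4 : x = y := by
        by_contra hne'
        have := lev_strictAnti (lt_of_le_of_ne h hne')
        omega
      rw [h4] at hx
      exact hyp hx) (by
      intro h
      obtain ⟨w, hw, hwy⟩ := Hul.exists_cov (lt_of_le_of_ne h (by rintro rfl; omega))
      rw [hx.2 w hw] at hwy
      refine hne ?_
      by_contra hne'
      have := lev_strictAnti (lt_of_le_of_ne hwy fun h => hne' h.symm)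
      omega) hy'.lt.ne
    rw [(hpc x hx).1, hzl, hxl, show GaussPoset.lev y = 15 by omega,
      show GaussPoset.lev y' = 14 by omega] at h3
    exact le_trans (by norm_num) h3
  · rw [E.th16 x hx]
    have hxl := lev16 H hv hx
    obtain ⟨⟨y, hy⟩, h2⟩ := mem_A16.mp hx
    have h3 := ct_cov (i := 6) (k := 7) hy.lt
    have h4 := ct_cov (i := 6) (k := 7) hzx.lt
    rw [(hpc y (h2 y hy)).2, hxl] at h3
    rw [hzl, hxl] at h4
    have h5 : min 7 (16 - 6) = 7 := by norm_num
    have h6 : min 7 (16 + 1 - 6) = 7 := by norm_num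
    rw [h5] at h3
    rw [h6] at h4
    show 77 ≤ ct 6 7 z
    omega

/-- no twins of the pendants outside the natural set -/
lemma tw_E7 (H : Gr P r) (hv : GaussPoset.lev v = 14) {z x : P} (hz : z ∉ nE t v)
    (hx : x ∈ nE t v) (hl : GaussPoset.lev x = 15) (h : ∀ w, x < w ↔ z < w) : False := by
  rw [mem_nE] at hx hz
  push Not at hz
  rcases hx with hx | hx | hx
  · exact absurd (mem_lowPart.mp hx).2 (by omega)
  · refine hz.2.1 ⟨⟨(h v).mp hx.1.lt, ?_⟩, ?_⟩
    · intro w hzw hwv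
      exact hx.1.2 ((h w).mpr hzw) hwv
    · intro y hy
      have h1 := (h y).mpr hy.lt
      obtain ⟨w, hw, hwy⟩ := Hul.exists_cov h1
      rw [hx.2 w hw] at hwy
      by_contra hne
      exact hy.2 ((h v).mp hx.1.lt) (lt_of_le_of_ne hwy fun h => hne h.symm)
  · have := lev16 H hv hx
    omega

/-- **The type of `E7`.** -/
theorem oth_E7 (h : Win.GoodTo P r 14) (C : Comp 14 (t : P) lo hi e) (D : WordD 14 4 w7 lo hi)
    {N : Tops P → Finset P} {θ : P → ℕ} (hN : N t = nE t (c7 e 24))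
    (E : E7L t (c7 e 24) θ) : TyE 6 7 77 N t 2 θ := by
  have H := h.H
  have hC := E7_cod14 D C H h.good
  have hst := E7_low D C
  have hl := E7_l14 D C
  have hone : ∀ x, x ≤ (t : P) → GaussPoset.lev x = 14 → x = c7 e 24 :=
    fun x hx hxl => E7_one D C hx hxl
  have hvt : c7 e 24 ≤ (t : P) := (E7_le D C (by norm_num)).1
  have hprof := E7_prof hC
  have huc := E7_uc hC
  have hpc : ∀ x, Pend x (c7 e 24) → ct 6 6 x = 62 ∧ ct 6 7 x = 65 :=
    fun x hx => E7_pct hC (lev15 H hl hx) hx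
  have hup : ∀ x ∈ lowPart 14 (t : P), ∀ y, x ≤ y → y ∈ lowPart 14 (t : P) := by
    intro x hx y hxy
    rw [mem_lowPart] at hx ⊢
    refine ⟨Cp.up_le H h.good t.2 hx.1 hx.2 hxy, ?_⟩
    rcases eq_or_lt_of_le hxy with h | h
    · rw [← h]; exact hx.2
    · have := lev_strictAnti h; omega
  generalize c7 e 24 = v at *
  have hvlow : v ∈ lowPart 14 (t : P) := mem_lowPart.mpr ⟨hvt, hl.le⟩
  have hup15 : ∀ x, Pend x v → ∀ y, x ≤ y → y ∈ nE t v := by
    intro x hx y hxy
    rcases eq_or_lt_of_le hxy with h1 | h1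
    · rw [← h1]
      exact mem_nE.mpr (Or.inr (Or.inl hx))
    · obtain ⟨w, hw, hwy⟩ := Hul.exists_cov h1
      rw [hx.2 w hw] at hwy
      exact mem_nE.mpr (Or.inl (hup v hvlow y hwy))
  refine TyE.oth ?_ ?_ ?_ ?_ ?_ ?_ ?_ ?_ ?_ ?_
  · rw [hN]
    exact E.loc
  · rw [hN]
    intro x hx
    exact mem_nE.mpr (Or.inl hx)
  · rw [hN]
    intro x hx
    rcases mem_nE.mp hx with hx | hx | hx
    · exact (mem_lowPart.mp hx).1
    · exact hx.1.le.trans hvt
    · obtain ⟨⟨y, hy⟩, h2⟩ := mem_A16.mp hx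
      exact hy.le.trans ((h2 y hy).1.le.trans hvt)
  · rw [hN]
    intro x hx y hxy
    rcases mem_nE.mp hx with hx | hx | hx
    · exact mem_nE.mpr (Or.inl (hup x hx y hxy))
    · exact hup15 x hx y hxy
    · rcases eq_or_lt_of_le hxy with h1 | h1
      · rw [← h1]
        exact mem_nE.mpr (Or.inr (Or.inr hx))
      · obtain ⟨w, hw, hwy⟩ := Hul.exists_cov h1
        exact hup15 w ((mem_A16.mp hx).2 w hw) y hwy
  · intro a b ha hb hal hbl
    rw [hone a ha hal, hone b hb hbl]
  · intro z w _ hw hwl hzw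
    rw [hone w hw hwl] at hzw
    rw [hN]
    exact mem_nE.mpr (Or.inr (Or.inl hzw))
  · intro w hw hwl
    rw [hone w hw hwl]
    exact ⟨hprof, E.th14, huc⟩
  · classical
    unfold cn
    refine (Finset.card_le_card (t := {c7 e 2}) ?_).trans (Finset.card_singleton _).le
    intro x hx
    obtain ⟨hx1, hx2⟩ := Finset.mem_filter.mp hx
    rw [mem_lv] at hx1
    obtain ⟨a, ha, rfl⟩ := (hst x).mp (mem_lowPart.mpr ⟨hx2, by omega⟩)
    have h2 : E7lv.getD a 0 = 2 := (hC.lev a ha).symm.trans hx1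
    have h3 : ∀ a < 25, E7lv.getD a 0 = 2 → a = 2 := by decide +kernel
    rw [h3 a ha h2]
    exact mem_singleton_self _
  · intro z hz x hx hxl hzx
    have hz' : z ∉ nE t v := by
      rw [← hN]
      exact mem_unnat.mp hz t
    rw [hN] at hx
    exact kap_E7 H hl hpc E hz' hx (by omega) hzx
  · intro z hz x hx hxl hw
    have hz' : z ∉ nE t v := by
      rw [← hN]
      exact mem_unnat.mp hz t
    rw [hN] at hx
    exact tw_E7 H hl hz' hx (by omega) hw

end Pool.Agent.GaussPoset.F6
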