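import Pool.Agent.W_448f6_h94.FxQ

/-!
Level 14, window 6: no pendants below the fold ends and the joins with a fold end
(MP_448cb3_co, S8, `m = 7`).
-/

namespace Pool.Agent.GaussPoset.F6

set_option linter.unusedSectionVars false

open Polynomial Finset Wd Cl Cp Fi

universe u

variable {P : Type u} [Fintype P] [PartialOrder P] [DecidableEq P] {r : ℕ}
  {N : Tops P → Finset P} {b : Tops P → ℕ} {θ : Tops P → P → ℕ}

/-- the joins with a fold end -/
theorem WE.join_class (W : WE r 6 7 77 N b θ)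
    (hC : ∀ z x x' : P, Fd 7 x → (Win.uc x').card = 1 → topOf x' = topOf x → x ≠ x' →
      z ⋖ x → z ⋖ x' → False) {z x x' : P} (hx : Fd 7 x) (ht : topOf x ≠ topOf x')
    (hzx : z ⋖ x) (hzx' : z ⋖ x') :
    Fd 7 x' ∨ ∃ p ∈ [[0, 0, 1, 1, 1], [0, 0, 1, 1, 1, 1, 1], p5, [0, 0, 0, 0, 0, 1], pE],
      Prof 7 x' (gD p) := by
  have H := W.gt.H
  have hz2 := W.join_r2 ht hzx hzx'
  have hne : x ≠ x' := fun h => ht (by rw [h])
  have hl : lev z = 2 * 7 + 1 := by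
    have h1 := (H.covBy_iff.mp hzx).2
    have h2 := hx.1
    omega
  have hlx' : lev x' = 2 * 7 := by
    have := (H.covBy_iff.mp hzx').2
    omega
  have h1 : (Win.uc x').card = 1 := by
    obtain ⟨j, hj⟩ : ∃ j, 2 * 7 = j + 1 := ⟨13, rfl⟩
    have hgt := W.gt
    rw [hj] at hgt
    rcases (Win.near_level' hgt (by omega)).1 z x x' (by omega) hzx hzx' hne with
      h7 | ⟨-, h8, -⟩
    · exact (W.near hz2 hl hzx hzx' hne h7).elim
    · exact h8
  rcases W.kind hlx' with h | h | h | h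
  · obtain ⟨p, hp, hpr⟩ := W.full_prof hlx' h (by norm_num) h1
    right
    rcases W.join_prof hC hx ht hzx hzx' hp hpr with rfl | rfl | rfl | rfl
    · exact ⟨_, by simp, hpr⟩
    · exact ⟨_, by simp, hpr⟩
    · exact ⟨_, by simp, hpr⟩
    · exact ⟨_, by simp, hpr⟩
  · exact Or.inl h
  · exact Or.inr ⟨pE, by simp, (h.prof x' (le_topOf x') hlx').1⟩
  · omega

/-- **Level 14, window 6**: `hC` is the absence of the elements (C). -/
theorem level14 (h : Win.GoodTo P r (2 * 7)) (hr : 2 * 7 + 1 ≤ r) {lo hi : Tops P → ℕ → ℕ}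
    {e : Tops P → ℕ → ℕ → P} (C : ∀ t : Tops P, Comp (2 * 7) (t : P) (lo t) (hi t) (e t))
    (hS : ∀ t, Shape (2 * 7) (lo t) (hi t))
    (hC : ∀ z x x' : P, Fd 7 x → (Win.uc x').card = 1 → topOf x' = topOf x → x ≠ x' →
      z ⋖ x → z ⋖ x' → False) :
    (∀ z x : P, Fd 7 x → ¬ Pend z x) ∧ ∀ z x x' : P, Fd 7 x → topOf x ≠ topOf x' → z ⋖ x →
      z ⋖ x' → Fd 7 x' ∨ ∃ p ∈ [[0, 0, 1, 1, 1], [0, 0, 1, 1, 1, 1, 1], p5,
        [0, 0, 0, 0, 0, 1], pE], Prof 7 x' (gD p) := by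
  obtain ⟨N, θ, W⟩ := exists_WE h hr C hS
  exact ⟨fun z x hx hp => W.no_pend hC hx hp,
    fun z x x' hx ht hzx hzx' => W.join_class hC hx ht hzx hzx'⟩

end Pool.Agent.GaussPoset.F6
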